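import Pool.Agent.Lib_MP_8a48ad_ci.GQKos

/-! # Piece COVB: covers by finitely many shifts of `B` -/

set_option autoImplicit false

namespace MP8a

universe u

variable {A : Type u} [CommRing A] {G : Gr A}

/-- a thick class is closed under regrading -/
private theorem covb_regr {T : DGM G → Prop} (hT : IsThick T) {B : DGM G} (hB : T B) (e : ℤ) :
    T (B.regr e) := by
  by_cases he : Even e
  · refine (hT.iso (M := B.regr e) (N := B.sh e) (LinearEquiv.refl A B.X) ⟨fun i x => ?_, fun x => ?_⟩).2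
      (hT.sh B e hB)
    · rw [add_zero]
      rfl
    · rw [DGM.sh_d_even B he]
      rfl
  · let s : (B.regr e).X ≃ₗ[A] (B.sh e).X :=
      LinearEquiv.ofLinearMap (sgn B) (sgn B) (LinearMap.ext fun x => sgn_sgn B x)
        (LinearMap.ext fun x => sgn_sgn B x)
    refine (hT.iso (M := B.regr e) (N := B.sh e) s ⟨fun i x => ?_, fun x => ?_⟩).2 (hT.sh B e hB)
    · rw [add_zero]
      exact sgn_pr B (i + e) x
    · change (if Even e then B.d else -B.d) (sgn B x) = sgn B (B.d x)
      rw [if_neg he, LinearMap.neg_apply, sgn_d, neg_neg]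

/-- Finitely many morphisms `e l : B → M` of degrees `a l` factor through one morphism `f : F → M` of degree `0`, `F` a finite sum of shifts of `B`.

PROOF. Induction on `r` (`Fin.init`, `Fin.last` or `Fin.cons`): `F' = F.prod (B.regr (-a))`, `f' = f.coprod e`, `j = inr : B → F'` of degree `a` (`pr (i + a + -a) = pr i`). For the
last clause: `T (B.regr (-a))`: if `a` is even `B.regr (-a)` is `B.sh (-a)` up to the identity map (`DGM.sh_d_even`, `IsThick.iso` with `LinearEquiv.refl`); if `a` is odd `B.regr (-a)` is isomorphic to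
`B.sh (-a)` by the sign map (`sgnE`, `sgn_hom`, `sgn_pr`, `sgn_d` in `GQKos.lean`: the differential of `B.sh (-a)` is `-d`). `FG`: apply the last clause to `T = FG` (`isThick_FG`). -/
theorem exists_fin_cover [IsNoetherianRing A] (B M : DGM G) (r : ℕ) (a : Fin r → ℤ)
    (e : Fin r → (B.X →ₗ[A] M.X)) (he : ∀ l, IsMor B M (a l) (e l)) :
    ∃ (F : DGM G) (f : F.X →ₗ[A] M.X) (j : Fin r → (B.X →ₗ[A] F.X)), IsMor F M 0 f ∧
      (∀ l, IsMor B F (a l) (j l)) ∧ (∀ l x, f (j l x) = e l x) ∧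
      ∀ T : DGM G → Prop, IsThick T → T B → T F := by
  induction r with
  | zero =>
    exact ⟨zeroM G, 0, fun l => l.elim0, isMor_zero _ _ _, fun l => l.elim0, fun l => l.elim0,
      fun T hT hB => hT.zero hB⟩
  | succ r ih =>
    obtain ⟨F, f, j, hf, hj, hfj, hT⟩ := ih (fun l => a l.castSucc) (fun l => e l.castSucc)
      (fun l => he l.castSucc)
    have hlast : IsMor (B.regr (-(a (Fin.last r)))) M 0 (e (Fin.last r)) :=
      (he (Fin.last r)).of_regr.cast (neg_add_cancel _)
    let j' : Fin (r + 1) → (B.X →ₗ[A] (F.X × B.X)) :=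
      Fin.lastCases (motive := fun _ => B.X →ₗ[A] (F.X × B.X)) (LinearMap.inr A F.X B.X)
        (fun l => LinearMap.inl A F.X B.X ∘ₗ j l)
    have hj1 : j' (Fin.last r) = LinearMap.inr A F.X B.X := Fin.lastCases_last
    have hj2 : ∀ l : Fin r, j' l.castSucc = LinearMap.inl A F.X B.X ∘ₗ j l :=
      fun l => Fin.lastCases_castSucc l
    refine ⟨F.prod (B.regr (-(a (Fin.last r)))), f.coprod (e (Fin.last r)), j',
      hf.coprod hlast, ?_, ?_, ?_⟩
    · intro l
      induction l using Fin.lastCases with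
      | last =>
        rw [hj1]
        refine ⟨fun i x => Prod.ext ?_ ?_, fun x => Prod.ext ?_ ?_⟩
        · change F.pr (i + a (Fin.last r)) 0 = 0
          rw [map_zero]
        · change B.pr (i + a (Fin.last r) + -(a (Fin.last r))) x = B.pr i x
          rw [add_neg_cancel_right]
        · change F.d 0 = 0
          rw [map_zero]
        · rfl
      | cast l =>
        rw [hj2]
        exact (isMor_inl F (B.regr (-(a (Fin.last r))))).comp0 (hj l)
    · intro l x
      induction l using Fin.lastCases with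
      | last =>
        rw [hj1]
        change f 0 + e (Fin.last r) x = e (Fin.last r) x
        rw [map_zero, zero_add]
      | cast l =>
        rw [hj2]
        change f (j l x) + e (Fin.last r) 0 = e l.castSucc x
        rw [map_zero, add_zero, hfj]
    · intro T hT' hB
      exact hT'.prod (hT T hT' hB) (covb_regr hT' hB _)

/-- THE COVER. PROOF. Take `e l` from `hFG M hM` and `F → M` from `exists_fin_cover`; `M1 = F.cone M f`, `ι = inl`, `L = F.sh 1`, `κ = snd` (`isSES_cone`; as in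
`exists_cover` in `Lib_MP_8a48ad_gt/Cover.lean`). `BGh`: for `φ : B → M` of degree `b`, `φ = ∑ e l ∘ θ l + (null-homotopic)`; `inl ∘ (null-homotopic)` is `NH` (`NH.comp_left`), and
`inl (e l (θ l x)) = inl (f (j l (θ l x)))`: with `H x = (0, j l (θ l x))`: `d (H x) + H (d x) = (f (j (θ x)), - d (j (θ x))) + (0, j (θ (d x))) = (f (j (θ x)), 0)`; degrees: `M1.pr i = (M.pr i, F.pr (i + 1))`. -/
theorem exists_coverB [IsNoetherianRing A] {B : DGM G} (hB : FG B) (hFG : FGB B) (M : DGM G)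
    (hM : FG M) : ∃ (M1 L : DGM G)
    (ι : M.X →ₗ[A] M1.X) (κ : M1.X →ₗ[A] L.X), IsMor M M1 0 ι ∧ IsMor M1 L 0 κ ∧
      IsSES M M1 L ι κ ∧ BGh B M M1 ι ∧ FG M1 ∧
      ∀ T : DGM G → Prop, IsThick T → T B → T L := by
  obtain ⟨r, a, e, he, hfg⟩ := hFG M hM
  obtain ⟨F, f, j, hf, hj, hfj, hT⟩ := exists_fin_cover B M r a e he
  have hF : FG F := hT FG isThick_FG hB
  refine ⟨F.cone M f hf, F.sh 1, LinearMap.inl A M.X F.X, LinearMap.snd A M.X F.X,
    isMor_cone_inl F M f hf, isMor_cone_snd F M f hf, isSES_cone F M f hf, ?_, ?_, ?_⟩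
  · intro b φ hφ
    obtain ⟨θ, hθ, hN⟩ := hfg b φ hφ
    have h1 : NH B (F.cone M f hf) b
        (LinearMap.inl A M.X F.X ∘ₗ (φ - ∑ l, e l ∘ₗ θ l)) :=
      (NH.comp_left (isMor_cone_inl F M f hf) hN).cast (add_zero b)
    have h2 : NH B (F.cone M f hf) b (∑ l, LinearMap.inl A M.X F.X ∘ₗ (e l ∘ₗ θ l)) := by
      refine NH.sum _ _ fun l _ => ?_
      have hjθ : IsMor B F b (j l ∘ₗ θ l) := ((hj l).comp (hθ l)).cast (sub_add_cancel _ _)
      refine ⟨LinearMap.inr A M.X F.X ∘ₗ (j l ∘ₗ θ l), fun i x => Prod.ext ?_ ?_, fun x => ?_⟩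
      · change M.pr (i + (b - 1)) 0 = 0
        rw [map_zero]
      · change F.pr (i + (b - 1) + 1) ((j l ∘ₗ θ l) x) = (j l ∘ₗ θ l) (B.pr i x)
        have h3 : i + (b - 1) + 1 = i + b := by ring
        rw [h3, hjθ.pr]
      · rw [DGM.cone_d]
        refine Prod.ext ?_ ?_
        · change e l (θ l x) = M.d 0 + f (j l (θ l x)) + 0
          rw [map_zero, zero_add, add_zero, hfj]
        · change 0 = -(F.d ((j l ∘ₗ θ l) x)) + (j l ∘ₗ θ l) (B.d x)
          rw [hjθ.d, neg_add_cancel]
    have h4 : LinearMap.inl A M.X F.X ∘ₗ φ = LinearMap.inl A M.X F.X ∘ₗ (φ - ∑ l, e l ∘ₗ θ l) +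
        ∑ l, LinearMap.inl A M.X F.X ∘ₗ (e l ∘ₗ θ l) := by
      have h5 : ∑ l, LinearMap.inl A M.X F.X ∘ₗ (e l ∘ₗ θ l) =
          LinearMap.inl A M.X F.X ∘ₗ ∑ l, e l ∘ₗ θ l := by
        refine LinearMap.ext fun x => ?_
        rw [LinearMap.sum_apply, LinearMap.comp_apply, LinearMap.sum_apply, map_sum]
        rfl
      rw [h5, ← LinearMap.comp_add, sub_add_cancel]
    rw [h4]
    exact h1.add h2
  · exact (FG_ses (isMor_cone_inl F M f hf) (isMor_cone_snd F M f hf)
      (isSES_cone F M f hf)).2.1 hM (FG_sh hF 1)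
  · intro T hT' hB'
    exact hT'.sh _ _ (hT T hT' hB')

end MP8a
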