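import Pool.Agent.Lib_MP_8a48ad_ci.Defs

/-!
# Complexes with an action of vectors: the Koszul step and the divided power step

`C` is an `A`-algebra. A `Cx A C` is a `C`-module `X` with an operator `D`, operators `E v` (`v : ℕ → C` a vector), a map `q : X → C`, an element `one`, and projections `pr i` (the
grading). No axioms; the identities are collected in `Cx.Ok` and `Cx.GOk`. In the examples `E v` is the multiplication by the form `∑ v_i ε_i`.
-/

set_option autoImplicit false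

namespace MP8a

universe u

structure Cx (A C : Type u) [CommRing A] [CommRing C] [Algebra A C] where
  X : Type u
  [instG : AddCommGroup X]
  [instA : Module A X]
  [instC : Module C X]
  [instT : IsScalarTower A C X]
  pr : ℤ → X →+ X
  D : X →ₗ[A] X
  E : (ℕ → C) → X →ₗ[A] X
  q : X →ₗ[A] C
  one : X

attribute [instance] Cx.instG Cx.instA Cx.instC Cx.instT

section

variable {A C : Type u} [CommRing A] [CommRing C] [Algebra A C]

/-- multiplication by `c` -/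
def mulL (A : Type u) {C : Type u} [CommRing A] [CommRing C] [Algebra A C] (X : Type u)
    [AddCommGroup X] [Module A X] [Module C X] [IsScalarTower A C X] (c : C) : X →ₗ[A] X where
  toFun x := c • x
  map_add' := smul_add c
  map_smul' a x := by
    rw [RingHom.id_apply, ← algebraMap_smul C a x, ← algebraMap_smul C a (c • x), smul_smul,
      smul_smul, mul_comm]

theorem mulL_apply (X : Type u) [AddCommGroup X] [Module A X] [Module C X] [IsScalarTower A C X]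
    (c : C) (x : X) : mulL A X c x = c • x := rfl

/-- the start: `C` with zero operators; `c` are the projections of the grading of `C` -/
@[reducible] noncomputable def Cx.base (A C : Type u) [CommRing A] [CommRing C] [Algebra A C]
    (c : ℤ → C →+ C) : Cx A C where
  X := C
  pr := c
  D := 0
  E _ := 0
  q := LinearMap.id
  one := 1

/-- the Koszul step: `(x, y) = x + ε y` with `D ε = z`, `E v` the multiplication by `v_i ε + …` -/
@[reducible] noncomputable def Cx.kos (K : Cx A C) (i : ℕ) (z : C) (e : ℤ) : Cx A C where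
  X := K.X × K.X
  pr j := (K.pr j).prodMap (K.pr (j + 1 + -e))
  D := (K.D.coprod (mulL A K.X z)).prod (-(K.D ∘ₗ LinearMap.snd A K.X K.X))
  E v := (K.E v ∘ₗ LinearMap.fst A K.X K.X).prod
    (mulL A K.X (v i) ∘ₗ LinearMap.fst A K.X K.X - K.E v ∘ₗ LinearMap.snd A K.X K.X)
  q := K.q ∘ₗ LinearMap.fst A K.X K.X
  one := (K.one, 0)

theorem Cx.kos_D (K : Cx A C) (i : ℕ) (z : C) (e : ℤ) (x : K.X × K.X) :
    (K.kos i z e).D x = (K.D x.1 + z • x.2, -(K.D x.2)) := rfl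

theorem Cx.kos_E (K : Cx A C) (i : ℕ) (z : C) (e : ℤ) (v : ℕ → C) (x : K.X × K.X) :
    (K.kos i z e).E v x = (K.E v x.1, v i • x.1 - K.E v x.2) := rfl

theorem Cx.kos_q (K : Cx A C) (i : ℕ) (z : C) (e : ℤ) (x : K.X × K.X) :
    (K.kos i z e).q x = K.q x.1 := rfl

/-- the divided power step: `b = ∑ b(a) γ^(a)` with `D γ^(a) = (E g) γ^(a-1)` -/
@[reducible] noncomputable def Cx.gam (K : Cx A C) (g : ℕ → C) (s : ℤ) : Cx A C where
  X := ℕ →₀ K.X
  pr := gamPr K.pr s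
  D := gamL K.D (K.E g)
  E v := cof (K.E v)
  q := K.q ∘ₗ Finsupp.lapply 0
  one := Finsupp.single 0 K.one

theorem Cx.gam_D (K : Cx A C) (g : ℕ → C) (s : ℤ) (b : ℕ →₀ K.X) (a : ℕ) :
    ((K.gam g s).D b : ℕ →₀ K.X) a = K.D (b a) + K.E g (b (a + 1)) := rfl

theorem Cx.gam_E (K : Cx A C) (g : ℕ → C) (s : ℤ) (v : ℕ → C) (b : ℕ →₀ K.X) (a : ℕ) :
    ((K.gam g s).E v b : ℕ →₀ K.X) a = K.E v (b a) := rfl

theorem Cx.gam_q (K : Cx A C) (g : ℕ → C) (s : ℤ) (b : ℕ →₀ K.X) :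
    (K.gam g s).q b = K.q (b 0) := rfl

/-- the Koszul complex on `z 0, …, z (m-1)` -/
noncomputable def Kx (A : Type u) {C : Type u} [CommRing A] [CommRing C] [Algebra A C]
    (c : ℤ → C →+ C) (z : ℕ → C) (e : ℕ → ℤ) : ℕ → Cx A C
  | 0 => Cx.base A C c
  | m + 1 => (Kx A c z e m).kos m (z m) (e m)

/-- `K[γ_0, …, γ_{j-1}]` -/
noncomputable def Tx (K : Cx A C) (g : ℕ → ℕ → C) (s : ℕ → ℤ) : ℕ → Cx A C
  | 0 => K
  | j + 1 => (Tx K g s j).gam (g j) (s j)

/-- the algebraic identities -/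
structure Cx.Ok (K : Cx A C) (z : ℕ → C) (m : ℕ) : Prop where
  D_smul : ∀ (c : C) (x : K.X), K.D (c • x) = c • K.D x
  E_smul : ∀ (v : ℕ → C) (c : C) (x : K.X), K.E v (c • x) = c • K.E v x
  q_smul : ∀ (c : C) (x : K.X), K.q (c • x) = c * K.q x
  DE : ∀ (v : ℕ → C) (x : K.X),
    K.D (K.E v x) + K.E v (K.D x) = (∑ i ∈ Finset.range m, z i * v i) • x
  EE : ∀ (v w : ℕ → C) (x : K.X), K.E v (K.E w x) + K.E w (K.E v x) = 0
  E2 : ∀ (v : ℕ → C) (x : K.X), K.E v (K.E v x) = 0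
  qE : ∀ (v : ℕ → C) (x : K.X), K.q (K.E v x) = 0
  qD : ∀ x : K.X, K.q (K.D x) ∈ Ideal.span (z '' {i | i < m})
  D1 : K.D K.one = 0
  q1 : K.q K.one = 1

/-- the grading is compatible with everything; `e i` is the degree of `z i` -/
structure Cx.GOk (K : Cx A C) (G : Gr C) (m : ℕ) (e : ℕ → ℤ) : Prop where
  pr_pr : ∀ (i j : ℤ) (x : K.X), K.pr i (K.pr j x) = if i = j then K.pr j x else 0
  fin : ∀ x : K.X, ∃ s : Finset ℤ, ∑ i ∈ s, K.pr i x = x
  smul : ∀ {i : ℤ} {a : C}, G.c i a = a → ∀ (j : ℤ) (x : K.X), K.pr (i + j) (a • x) = a • K.pr j x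
  D_pr : ∀ (i : ℤ) (x : K.X), K.pr (i + 1) (K.D x) = K.D (K.pr i x)
  E_pr : ∀ (t : ℤ) (v : ℕ → C), (∀ i < m, G.c (t - e i) (v i) = v i) →
    ∀ (j : ℤ) (x : K.X), K.pr (j + (t - 1)) (K.E v x) = K.E v (K.pr j x)
  q_pr : ∀ (i : ℤ) (x : K.X), K.q (K.pr i x) = G.c i (K.q x)

theorem Cx.GOk.exists_support {K : Cx A C} {G : Gr C} {m : ℕ} {e : ℕ → ℤ} (h : K.GOk G m e)
    (x : K.X) : ∃ s : Finset ℤ, (∀ i, i ∉ s → K.pr i x = 0) ∧
      ∀ t : Finset ℤ, s ⊆ t → ∑ i ∈ t, K.pr i x = x := by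
  obtain ⟨s, hs⟩ := h.fin x
  have h0 : ∀ i, i ∉ s → K.pr i x = 0 := by
    intro i hi
    rw [← hs, map_sum]
    refine Finset.sum_eq_zero fun j hj => ?_
    rw [h.pr_pr, if_neg]
    rintro rfl
    exact hi hj
  refine ⟨s, h0, fun t ht => ?_⟩
  rw [← Finset.sum_subset ht (fun i _ hi => h0 i hi), hs]

/-- the DG module over `A` -/
@[reducible] def Cx.toA (K : Cx A C) {G : Gr A} {GC : Gr C} (hc : Compat G GC) {m : ℕ} {e : ℕ → ℤ}
    (h : K.GOk GC m e) (h2 : ∀ x, K.D (K.D x) = 0) : DGM G where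
  X := K.X
  pr := K.pr
  pr_pr := h.pr_pr
  fin := h.fin
  smul := by
    intro i j a x ha hx
    have h1 : GC.c i (algebraMap A C a) = algebraMap A C a := by rw [← hc, ha]
    rw [← algebraMap_smul C a x, h.smul h1, hx]
  d := K.D
  d_hom := by
    intro i x hx
    rw [h.D_pr, hx]
  d_d := h2

/-- the DG module over `C` -/
@[reducible] def Cx.toC (K : Cx A C) {GC : Gr C} {m : ℕ} {e : ℕ → ℤ} (h : K.GOk GC m e)
    (hl : ∀ (c : C) (x : K.X), K.D (c • x) = c • K.D x) (h2 : ∀ x, K.D (K.D x) = 0) : DGM GC where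
  X := K.X
  pr := K.pr
  pr_pr := h.pr_pr
  fin := h.fin
  smul := by
    intro i j a x ha hx
    rw [h.smul ha, hx]
  d := { toFun := K.D, map_add' := K.D.map_add, map_smul' := hl }
  d_hom := by
    intro i x hx
    change K.pr (i + 1) (K.D x) = K.D x
    rw [h.D_pr, hx]
  d_d := h2

/-! ### the two steps, as DG modules over `A` -/

theorem Cx.isMor_mulL (K : Cx A C) {G : Gr A} {GC : Gr C} (hc : Compat G GC) {m : ℕ} {e : ℕ → ℤ}
    (h : K.GOk GC m e) (hl : ∀ (c : C) (x : K.X), K.D (c • x) = c • K.D x)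
    (h2 : ∀ x, K.D (K.D x) = 0) {e0 : ℤ} {z : C} (hz : GC.c e0 z = z) :
    IsMor ((K.toA hc h h2).regr (-e0)) (K.toA hc h h2) 0 (mulL A K.X z) := by
  refine ⟨fun i x => ?_, fun x => hl z x⟩
  change K.pr (i + 0) (z • x) = z • K.pr (i + -e0) x
  have h3 := h.smul hz (i + -e0) x
  have h4 : e0 + (i + -e0) = i + 0 := by ring
  rw [h4] at h3
  exact h3

theorem Cx.toA_kos (K : Cx A C) {G : Gr A} {GC : Gr C} (hc : Compat G GC) {m m' : ℕ} {e : ℕ → ℤ}
    (h : K.GOk GC m e) (hl : ∀ (c : C) (x : K.X), K.D (c • x) = c • K.D x)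
    (h2 : ∀ x, K.D (K.D x) = 0) {i : ℕ} {e0 : ℤ} {z : C} (hz : GC.c e0 z = z)
    (h' : (K.kos i z e0).GOk GC m' e) (h2' : ∀ x, (K.kos i z e0).D ((K.kos i z e0).D x) = 0) :
    (K.kos i z e0).toA hc h' h2' = ((K.toA hc h h2).regr (-e0)).cone (K.toA hc h h2)
      (mulL A K.X z) (K.isMor_mulL hc h hl h2 hz) := rfl

theorem Cx.toA_gam (K : Cx A C) {G : Gr A} {GC : Gr C} (hc : Compat G GC) {m : ℕ} {e : ℕ → ℤ}
    (h : K.GOk GC m e) (h2 : ∀ x, K.D (K.D x) = 0) {g : ℕ → C} {s : ℤ}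
    (ha : IsAnti (K.toA hc h h2) (s + 1) (K.E g))
    (h' : (K.gam g s).GOk GC m e) (h2' : ∀ x, (K.gam g s).D ((K.gam g s).D x) = 0) :
    (K.gam g s).toA hc h' h2' = gamD (K.toA hc h h2) (K.E g) s ha := rfl

end

end MP8a
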