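import Pool.Agent.Lib_MP_8a48ad_gt.Cover
import Pool.Agent.Lib_MP_8a48ad_gt.NZ
import Pool.Agent.Lib_MP_8a48ad_gt.ThickB
import Pool.Agent.Lib_MP_8a48ad_gt.Homg

/-!
# MP_8a48ad_gt, complete intersections: the abstract notions

Everything is about DG modules over a commutative ring `A` graded by even degrees, zero differential (`DGM`). All
morphisms commute strictly with the differentials, whatever their degree.
-/

set_option autoImplicit false

namespace MP8a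

universe u

section

variable {A : Type u} [CommRing A] {G : Gr A}

/-- `f` is null-homotopic: `f = d H + H d` with `H` homogeneous of degree `e - 1` -/
def NH (M N : DGM G) (e : ℤ) (f : M.X →ₗ[A] N.X) : Prop :=
  ∃ H : M.X →ₗ[A] N.X, (∀ i x, N.pr (i + (e - 1)) (H x) = H (M.pr i x)) ∧
    ∀ x, f x = N.d (H x) + H (M.d x)

theorem NH.zero (M N : DGM G) (e : ℤ) : NH M N e (0 : M.X →ₗ[A] N.X) :=
  ⟨0, fun i x => by simp, fun x => by simp⟩

theorem NH.add {M N : DGM G} {e : ℤ} {f g : M.X →ₗ[A] N.X} (hf : NH M N e f) (hg : NH M N e g) :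
    NH M N e (f + g) := by
  obtain ⟨H, h1, h2⟩ := hf
  obtain ⟨H', h1', h2'⟩ := hg
  refine ⟨H + H', fun i x => ?_, fun x => ?_⟩
  · rw [LinearMap.add_apply, LinearMap.add_apply, map_add, h1, h1']
  · rw [LinearMap.add_apply, LinearMap.add_apply, LinearMap.add_apply, map_add, h2, h2']
    abel

theorem NH.neg {M N : DGM G} {e : ℤ} {f : M.X →ₗ[A] N.X} (hf : NH M N e f) : NH M N e (-f) := by
  obtain ⟨H, h1, h2⟩ := hf
  refine ⟨-H, fun i x => ?_, fun x => ?_⟩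
  · rw [LinearMap.neg_apply, LinearMap.neg_apply, map_neg, h1]
  · rw [LinearMap.neg_apply, LinearMap.neg_apply, LinearMap.neg_apply, map_neg, h2]
    abel

theorem NH.sub {M N : DGM G} {e : ℤ} {f g : M.X →ₗ[A] N.X} (hf : NH M N e f) (hg : NH M N e g) :
    NH M N e (f - g) := by
  rw [sub_eq_add_neg]
  exact hf.add hg.neg

theorem NH.cast {M N : DGM G} {e e' : ℤ} {f : M.X →ₗ[A] N.X} (h : NH M N e f) (he : e = e') :
    NH M N e' f := he ▸ h

/-- composition with a morphism on the left -/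
theorem NH.comp_left {M N L : DGM G} {e e' : ℤ} {f : M.X →ₗ[A] N.X} {g : N.X →ₗ[A] L.X}
    (hg : IsMor N L e' g) (hf : NH M N e f) : NH M L (e + e') (g ∘ₗ f) := by
  obtain ⟨H, h1, h2⟩ := hf
  refine ⟨g ∘ₗ H, fun i x => ?_, fun x => ?_⟩
  · rw [LinearMap.comp_apply, LinearMap.comp_apply, ← h1, ← hg.pr]
    congr 2
    ring
  · rw [LinearMap.comp_apply, LinearMap.comp_apply, LinearMap.comp_apply, h2, map_add, hg.d]

/-- composition with a morphism on the right -/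
theorem NH.comp_right {M N L : DGM G} {e e' : ℤ} {f : L.X →ₗ[A] M.X} {g : M.X →ₗ[A] N.X}
    (hf : IsMor L M e' f) (hg : NH M N e g) : NH L N (e' + e) (g ∘ₗ f) := by
  obtain ⟨H, h1, h2⟩ := hg
  refine ⟨H ∘ₗ f, fun i x => ?_, fun x => ?_⟩
  · rw [LinearMap.comp_apply, LinearMap.comp_apply, ← hf.pr, ← h1]
    congr 2
    ring
  · rw [LinearMap.comp_apply, LinearMap.comp_apply, LinearMap.comp_apply, h2, hf.d]

theorem NH.sum {M N : DGM G} {e : ℤ} {ι : Type*} (s : Finset ι) (f : ι → (M.X →ₗ[A] N.X))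
    (h : ∀ i ∈ s, NH M N e (f i)) : NH M N e (∑ i ∈ s, f i) := by
  classical
  induction s using Finset.induction_on with
  | empty => simpa using NH.zero M N e
  | insert a s ha ih =>
    rw [Finset.sum_insert ha]
    exact (h a (Finset.mem_insert_self a s)).add
      (ih fun i hi => h i (Finset.mem_insert_of_mem hi))

theorem IsMor.sum {M N : DGM G} {e : ℤ} {ι : Type*} (s : Finset ι) (f : ι → (M.X →ₗ[A] N.X))
    (h : ∀ i ∈ s, IsMor M N e (f i)) : IsMor M N e (∑ i ∈ s, f i) := by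
  classical
  induction s using Finset.induction_on with
  | empty => simpa using isMor_zero M N e
  | insert a s ha ih =>
    rw [Finset.sum_insert ha]
    exact (h a (Finset.mem_insert_self a s)).add
      (ih fun i hi => h i (Finset.mem_insert_of_mem hi))

/-- a null-homotopic map is a morphism -/
theorem NH.isMor {M N : DGM G} {e : ℤ} {f : M.X →ₗ[A] N.X} (hf : NH M N e f) : IsMor M N e f := by
  obtain ⟨H, h1, h2⟩ := hf
  refine ⟨fun i x => ?_, fun x => ?_⟩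
  · have h3 := h1 i x
    have h4 := h1 (i + 1) (M.d x)
    have h5 := N.pr_d (i + (e - 1)) (H x)
    have h6 : i + (e - 1) + 1 = i + e := by ring
    have h7 : i + 1 + (e - 1) = i + e := by ring
    rw [h6] at h5
    rw [h7] at h4
    rw [h2, map_add, h5, h3, h4, h2 (M.pr i x), M.pr_d]
  · rw [h2, map_add, N.d_d, zero_add, h2 (M.d x), M.d_d, map_zero, add_zero]

/-- `f` kills all the morphisms from `B`, up to homotopy -/
def BGh (B M N : DGM G) (f : M.X →ₗ[A] N.X) : Prop :=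
  ∀ (e : ℤ) (φ : B.X →ₗ[A] M.X), IsMor B M e φ → NH B N e (f ∘ₗ φ)

/-- The property of killing a composition of `g` maps of the class `𝒢` (in the derived category) -/
def GQ (𝒢 : ∀ M N : DGM G, (M.X →ₗ[A] N.X) → Prop) (X : DGM G) (g : ℕ) : Prop :=
  ∀ (X' : DGM G) (e' : ℤ) (p : X'.X →ₗ[A] X.X), IsMor X' X e' p → SQ X' X p →
    ∀ (Y : ℕ → DGM G) (γ : ∀ j, (Y j).X →ₗ[A] (Y (j + 1)).X),
      (∀ j, IsMor (Y j) (Y (j + 1)) 0 (γ j)) → (∀ j, 𝒢 (Y j) (Y (j + 1)) (γ j)) →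
      ∀ (e : ℤ) (y : X'.X →ₗ[A] (Y 0).X), IsMor X' (Y 0) e y → NZ X' (Y g) e (cmp Y γ g ∘ₗ y)

/-- morphisms from `B` lift along trivial fibrations -/
def LP (B : DGM G) : Prop :=
  ∀ (X' X : DGM G) (e' : ℤ) (p : X'.X →ₗ[A] X.X), IsMor X' X e' p → SQ X' X p →
    ∀ (e : ℤ) (φ : B.X →ₗ[A] X.X), IsMor B X (e + e') φ →
      ∃ φ' : B.X →ₗ[A] X'.X, IsMor B X' e φ' ∧ ∀ x, p (φ' x) = φ x

/-- for every `M` with finitely generated cohomology there are finitely many morphisms `B → M` such that all morphisms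
`B → M` are, up to homotopy, sums of these composed with endomorphisms of `B` -/
def FGB (B : DGM G) : Prop :=
  ∀ M : DGM G, FG M → ∃ (r : ℕ) (a : Fin r → ℤ) (e : Fin r → (B.X →ₗ[A] M.X)),
    (∀ l, IsMor B M (a l) (e l)) ∧ ∀ (b : ℤ) (φ : B.X →ₗ[A] M.X), IsMor B M b φ →
      ∃ θ : Fin r → (B.X →ₗ[A] B.X), (∀ l, IsMor B B (b - a l) (θ l)) ∧
        NH B M b (φ - ∑ l, e l ∘ₗ θ l)

/-- The general lifting property: solve `p φ' = φ`, `d φ' - φ' d = ψ`. -/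
def LPp (K : DGM G) : Prop :=
  ∀ (X' X : DGM G) (e' : ℤ) (p : X'.X →ₗ[A] X.X), IsMor X' X e' p → SQ X' X p →
    ∀ (e : ℤ) (φ : K.X →ₗ[A] X.X) (ψ : K.X →ₗ[A] X'.X),
      (∀ i x, X.pr (i + (e + e')) (φ x) = φ (K.pr i x)) →
      (∀ i x, X'.pr (i + (e + 1)) (ψ x) = ψ (K.pr i x)) →
      (∀ x, X'.d (ψ x) = -ψ (K.d x)) → (∀ x, p (ψ x) = X.d (φ x) - φ (K.d x)) →
      ∃ φ' : K.X →ₗ[A] X'.X, (∀ i x, X'.pr (i + e) (φ' x) = φ' (K.pr i x)) ∧ (∀ x, p (φ' x) = φ x) ∧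
        ∀ x, X'.d (φ' x) - φ' (K.d x) = ψ x

theorem LPp.lp {K : DGM G} (h : LPp K) : LP K := by
  intro X' X e' p hp hq e φ hφ
  obtain ⟨φ', h1, h2, h3⟩ := h X' X e' p hp hq e φ 0 hφ.pr (fun i x => by simp) (fun x => by simp)
    (fun x => by simp [hφ.d])
  exact ⟨φ', ⟨h1, fun x => sub_eq_zero.1 (h3 x)⟩, h2⟩

/-- every composition of `g` maps which are zero in cohomology is null-homotopic on `K` -/
def GhN (K : DGM G) (g : ℕ) : Prop :=
  ∀ (Y : ℕ → DGM G) (γ : ∀ j, (Y j).X →ₗ[A] (Y (j + 1)).X),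
    (∀ j, IsMor (Y j) (Y (j + 1)) 0 (γ j)) → (∀ j, Ghost (Y j) (Y (j + 1)) (γ j)) →
    ∀ (e : ℤ) (y : K.X →ₗ[A] (Y 0).X), IsMor K (Y 0) e y → NH K (Y g) e (cmp Y γ g ∘ₗ y)

/-- the endomorphisms of `K` of degree `e` which commute with the operators in `Ω` -/
def Th (K : DGM G) (Ω : Set (K.X →ₗ[A] K.X)) (e : ℤ) (θ : K.X →ₗ[A] K.X) : Prop :=
  IsMor K K e θ ∧ ∀ ω ∈ Ω, ∀ x, θ (ω x) = ω (θ x)

/-- closed families of morphisms `K → M` -/
structure Cl (K : DGM G) (Ω : Set (K.X →ₗ[A] K.X)) (M : DGM G) (𝓝 : ℤ → Set (K.X →ₗ[A] M.X)) :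
    Prop where
  mor : ∀ {b φ}, φ ∈ 𝓝 b → IsMor K M b φ
  zero : ∀ b, (0 : K.X →ₗ[A] M.X) ∈ 𝓝 b
  add : ∀ {b φ ψ}, φ ∈ 𝓝 b → ψ ∈ 𝓝 b → φ + ψ ∈ 𝓝 b
  comp : ∀ {b φ e θ}, φ ∈ 𝓝 b → Th K Ω e θ → φ ∘ₗ θ ∈ 𝓝 (e + b)
  nh : ∀ {b φ ψ}, φ ∈ 𝓝 b → NH K M b ψ → φ + ψ ∈ 𝓝 b

/-- every closed family of morphisms from `K` to a DG module with finitely generated cohomology is finitely generated over
the endomorphisms of `K` commuting with `Ω` -/
def FGP (K : DGM G) (Ω : Set (K.X →ₗ[A] K.X)) : Prop :=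
  ∀ M : DGM G, FG M → ∀ 𝓝 : ℤ → Set (K.X →ₗ[A] M.X), Cl K Ω M 𝓝 →
    ∃ (r : ℕ) (a : Fin r → ℤ) (e : Fin r → (K.X →ₗ[A] M.X)), (∀ l, e l ∈ 𝓝 (a l)) ∧
      ∀ (b : ℤ) (φ : K.X →ₗ[A] M.X), φ ∈ 𝓝 b → ∃ θ : Fin r → (K.X →ₗ[A] K.X),
        (∀ l, Th K Ω (b - a l) (θ l)) ∧ NH K M b (φ - ∑ l, e l ∘ₗ θ l)

theorem Cl.neg {K : DGM G} {Ω : Set (K.X →ₗ[A] K.X)} {M : DGM G} {𝓝 : ℤ → Set (K.X →ₗ[A] M.X)}
    (h : Cl K Ω M 𝓝) {b : ℤ} {φ : K.X →ₗ[A] M.X} (hφ : φ ∈ 𝓝 b) : -φ ∈ 𝓝 b := by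
  have h1 : Th K Ω 0 (-LinearMap.id) := ⟨(isMor_id K).neg, fun ω _ x => by simp⟩
  have h2 := h.comp hφ h1
  have h3 : φ ∘ₗ (-LinearMap.id) = -φ := by
    ext x
    simp
  rw [h3, zero_add] at h2
  exact h2

theorem Cl.sub {K : DGM G} {Ω : Set (K.X →ₗ[A] K.X)} {M : DGM G} {𝓝 : ℤ → Set (K.X →ₗ[A] M.X)}
    (h : Cl K Ω M 𝓝) {b : ℤ} {φ ψ : K.X →ₗ[A] M.X} (hφ : φ ∈ 𝓝 b) (hψ : ψ ∈ 𝓝 b) : φ - ψ ∈ 𝓝 b := by
  rw [sub_eq_add_neg]
  exact h.add hφ (h.neg hψ)

theorem Cl.sum {K : DGM G} {Ω : Set (K.X →ₗ[A] K.X)} {M : DGM G} {𝓝 : ℤ → Set (K.X →ₗ[A] M.X)}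
    (h : Cl K Ω M 𝓝) {b : ℤ} {ι : Type*} (s : Finset ι) (f : ι → (K.X →ₗ[A] M.X))
    (hf : ∀ i ∈ s, f i ∈ 𝓝 b) : ∑ i ∈ s, f i ∈ 𝓝 b := by
  classical
  induction s using Finset.induction_on with
  | empty => simpa using h.zero b
  | insert a s ha ih =>
    rw [Finset.sum_insert ha]
    exact h.add (hf a (Finset.mem_insert_self a s))
      (ih fun i hi => hf i (Finset.mem_insert_of_mem hi))

/-- all morphisms form a closed family -/
theorem cl_all (K : DGM G) (Ω : Set (K.X →ₗ[A] K.X)) (M : DGM G) :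
    Cl K Ω M (fun b => {φ | IsMor K M b φ}) where
  mor := fun h => h
  zero := fun b => isMor_zero K M b
  add := fun h h' => IsMor.add h h'
  comp := fun h h' => IsMor.comp h h'.1
  nh := fun h h' => IsMor.add h h'.isMor

theorem FGP.fgb {K : DGM G} {Ω : Set (K.X →ₗ[A] K.X)} (h : FGP K Ω) : FGB K := by
  intro M hM
  obtain ⟨r, a, e, h1, h2⟩ := h M hM _ (cl_all K Ω M)
  exact ⟨r, a, e, h1, fun b φ hφ => by
    obtain ⟨θ, h3, h4⟩ := h2 b φ hφ
    exact ⟨θ, fun l => (h3 l).1, h4⟩⟩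

/-! ### divided powers -/

/-- the grading of `K[γ]`, `γ` of degree `s`: the coefficient of `γ^a` of the component of degree `i` is the component of
degree `i - a s` of the coefficient -/
noncomputable def gamPr {X : Type u} [AddCommGroup X] (pr : ℤ → X →+ X) (s : ℤ) (i : ℤ) :
    (ℕ →₀ X) →+ (ℕ →₀ X) where
  toFun b := Finsupp.onFinset b.support (fun a => pr (i - a * s) (b a)) (fun a h => by
    rw [Finsupp.mem_support_iff]
    rintro h1
    rw [h1, map_zero] at h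
    exact h rfl)
  map_zero' := by
    ext a
    simp
  map_add' := fun b b' => by
    ext a
    simp

theorem gamPr_apply {X : Type u} [AddCommGroup X] (pr : ℤ → X →+ X) (s : ℤ) (i : ℤ) (b : ℕ →₀ X)
    (a : ℕ) : gamPr pr s i b a = pr (i - a * s) (b a) := rfl

/-- the shift `χ`: `(χ b)(a) = b (a + 1)` -/
noncomputable def shf (A : Type u) [CommRing A] (X : Type u) [AddCommGroup X] [Module A X] :
    (ℕ →₀ X) →ₗ[A] (ℕ →₀ X) :=
  Finsupp.lcomapDomain (fun a : ℕ => a + 1) (add_left_injective 1)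

theorem shf_apply {X : Type u} [AddCommGroup X] [Module A X] (b : ℕ →₀ X) (a : ℕ) :
    shf A X b a = b (a + 1) := rfl

/-- an operator acting on the coefficients -/
noncomputable def cof {X Z : Type u} [AddCommGroup X] [Module A X] [AddCommGroup Z] [Module A Z]
    (θ : X →ₗ[A] Z) : (ℕ →₀ X) →ₗ[A] (ℕ →₀ Z) :=
  Finsupp.mapRange.linearMap θ

theorem cof_apply {X Z : Type u} [AddCommGroup X] [Module A X] [AddCommGroup Z] [Module A Z]
    (θ : X →ₗ[A] Z) (b : ℕ →₀ X) (a : ℕ) : cof θ b a = θ (b a) := rfl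

/-- the differential of `K[γ]`: `D (x γ^a) = (D x) γ^a + (σ x) γ^{a-1}` -/
noncomputable def gamL {X : Type u} [AddCommGroup X] [Module A X] (D σ : X →ₗ[A] X) :
    (ℕ →₀ X) →ₗ[A] (ℕ →₀ X) :=
  cof D + cof σ ∘ₗ shf A X

theorem gamL_apply {X : Type u} [AddCommGroup X] [Module A X] (D σ : X →ₗ[A] X) (b : ℕ →₀ X)
    (a : ℕ) : gamL D σ b a = D (b a) + σ (b (a + 1)) := rfl

/-- `σ` is homogeneous of degree `t`, anticommutes with `d` and `σ ∘ σ = 0` -/
structure IsAnti (K : DGM G) (t : ℤ) (σ : K.X →ₗ[A] K.X) : Prop where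
  pr : ∀ i x, K.pr (i + t) (σ x) = σ (K.pr i x)
  d : ∀ x, K.d (σ x) + σ (K.d x) = 0
  sq : ∀ x, σ (σ x) = 0

theorem gamD_fin (K : DGM G) (s : ℤ) (b : ℕ →₀ K.X) :
    ∃ t : Finset ℤ, ∑ i ∈ t, gamPr K.pr s i b = b := by
  classical
  choose S hS0 hS using fun a : ℕ => K.exists_support (b a)
  refine ⟨b.support.biUnion fun a => (S a).map (addRightEmbedding (a * s)), ?_⟩
  ext a
  rw [Finsupp.finsetSum_apply]
  simp only [gamPr_apply]
  by_cases ha : b a = 0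
  · rw [ha]
    simp
  · have h1 := hS a ((b.support.biUnion fun a => (S a).map (addRightEmbedding (a * s))).map
      (addRightEmbedding (-(a * s)))) (by
        intro i hi
        rw [Finset.mem_map]
        refine ⟨i + a * s, Finset.mem_biUnion.2 ⟨a, Finsupp.mem_support_iff.2 ha,
          Finset.mem_map.2 ⟨i, hi, rfl⟩⟩, ?_⟩
        simp)
    rw [Finset.sum_map] at h1
    exact h1

/-- `K[γ]` with the divided power variable `γ` of degree `s` and `D γ = σ` -/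
@[reducible] noncomputable def gamD (K : DGM G) (σ : K.X →ₗ[A] K.X) (s : ℤ)
    (h : IsAnti K (s + 1) σ) : DGM G where
  X := ℕ →₀ K.X
  pr := gamPr K.pr s
  pr_pr i j b := by
    ext a
    rw [gamPr_apply, gamPr_apply, K.pr_pr]
    by_cases hij : i = j
    · rw [if_pos (by rw [hij]), if_pos hij, gamPr_apply]
    · rw [if_neg (fun h' => hij (sub_left_injective h')), if_neg hij]
      rfl
  fin := gamD_fin K s
  smul := by
    intro i j a b ha hb
    ext l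
    rw [gamPr_apply, Finsupp.smul_apply]
    have h1 : K.pr (j - l * s) (b l) = b l := by rw [← gamPr_apply, hb]
    have h2 := K.smul ha h1
    have h3 : i + (j - l * s) = i + j - l * s := by ring
    rw [h3] at h2
    exact h2
  d := gamL K.d σ
  d_hom := by
    intro i b hb
    ext a
    have h1 : ∀ l : ℕ, K.pr (i - l * s) (b l) = b l := fun l => by rw [← gamPr_apply, hb]
    rw [gamPr_apply, gamL_apply, map_add]
    have h2 := K.pr_d (i - a * s) (b a)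
    have h3 := h.pr (i - (a + 1 : ℕ) * s) (b (a + 1))
    have h4 : i - a * s + 1 = i + 1 - a * s := by ring
    have h5 : i - (a + 1 : ℕ) * s + (s + 1) = i + 1 - a * s := by
      push_cast
      ring
    rw [h4, h1] at h2
    rw [h5, h1] at h3
    rw [h2, h3]
  d_d b := by
    ext a
    rw [gamL_apply, gamL_apply, gamL_apply, map_add K.d, map_add σ, K.d_d, h.sq]
    have := h.d (b (a + 1))
    rw [zero_add, add_zero, this]
    rfl

end

end MP8a
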