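import Pool.Agent.Lib_MP_8a48ad_ci.OkGam

/-! # Piece EXG: exactness, the divided power step -/

set_option autoImplicit false

namespace MP8a

universe u

/-- `π : K → K'` is surjective with kernel `f K`, and compatible with everything over the ring homomorphism `h` -/
structure Hm {A C A' C' : Type u} [CommRing A] [CommRing C] [Algebra A C] [CommRing A']
    [CommRing C'] [Algebra A' C'] (K : Cx A C) (K' : Cx A' C') (h : C →+* C') (f : C)
    (π : K.X →+ K'.X) : Prop where
  surj : Function.Surjective π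
  ker : ∀ x, π x = 0 ↔ ∃ w, x = f • w
  D : ∀ x, π (K.D x) = K'.D (π x)
  E : ∀ (v : ℕ → C) (x : K.X), π (K.E v x) = K'.E (h ∘ v) (π x)
  q : ∀ x, K'.q (π x) = h (K.q x)

variable {A C A' C' : Type u} [CommRing A] [CommRing C] [Algebra A C] [CommRing A'] [CommRing C']
  [Algebra A' C']

/-- THE DIVIDED POWER STEP: `K' = K / f K`, `D σ + σ D = f` on `K`, `σ = E g`. If `K` is exact then so is `K'[γ]`.

PROOF. Let `b ∈ K'[γ]` be a cycle with `ε' (q b) = 0`. We show by induction on `N` that if `b(a) = 0` for `a > N` then `b` is a boundary (the start can be `N = 0`, or `b = 0`). Choose `x_N ∈ K` with `π x_N = b(N)`.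
The coefficient `N` of `D b` gives `D' b(N) = 0`, so `D x_N = f u_N`. `f (D u_N) = D (D x_N) = 0`, so `D u_N = 0` (`hf`). Let `σ = K.E g`, `σ' = K'.E (h ∘ g)` and `z_N = x_N - σ u_N`: `D z_N = f u_N - D σ u_N = σ D u_N = 0`
(`hK.DE`). CASE `N ≥ 1`. Choose `x` with `π x = b(N-1)`. The coefficient `N - 1` of `D b` gives `D x + σ x_N = f w`, i.e. `D x + σ z_N = f w` (`E2`). Apply `D`: `D σ z_N = f D w`; `D σ z_N = f z_N - σ D z_N = f z_N`. So
`z_N = D w`. Let `b' = b - D (single (N+1) (π u_N)) - D (single N (π w))`. `D (single (N+1) (π u_N)) = single N (π (σ u_N))` (because `D u_N = 0`), `D (single N (π w)) = single N (π z_N) + single (N-1) (σ' π w)`.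
So `b' (a) = 0` for `a ≥ N`, `b'` is a cycle, `ε' (q b') = 0` (`qE`; `ε' q D' = 0` because `q D x ∈ span (z i)` is killed by `ε`: use `hεz`). By induction `b'` is a boundary. CASE `N = 0`: `ε (q z_0) = ε (q x_0) = ε' (q' (b 0)) = 0`
so `z_0 = D u` and `b = D (single 1 (π u_0) + single 0 (π u))`. -/
theorem ex_gam {K : Cx A C} {K' : Cx A' C'} {h : C →+* C'} {f : C} {π : K.X →+ K'.X}
    (hπ : Hm K K' h f π) {z : ℕ → C} {m : ℕ} (hK : K.Ok z m) (h2 : ∀ x, K.D (K.D x) = 0)
    (h2' : ∀ x, K'.D (K'.D x) = 0)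
    {g : ℕ → C} (hg : ∑ i ∈ Finset.range m, z i * g i = f) (hf : ∀ x : K.X, f • x = 0 → x = 0)
    (hK' : K'.Ok (h ∘ z) m) (hg' : h f = 0)
    {S : Type u} [CommRing S] (ε : C →+* S) (ε' : C' →+* S) (hε : ∀ c, ε' (h c) = ε c)
    (hεz : ∀ i < m, ε (z i) = 0)
    (hex : ∀ x : K.X, K.D x = 0 → ε (K.q x) = 0 → ∃ u, K.D u = x) (s : ℤ)
    (b : (K'.gam (h ∘ g) s).X) (hb : (K'.gam (h ∘ g) s).D b = 0)
    (hqb : ε' ((K'.gam (h ∘ g) s).q b) = 0) : ∃ u, (K'.gam (h ∘ g) s).D u = b := by
  classical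
  have hDE : ∀ x, K.D (K.E g x) + K.E g (K.D x) = f • x := fun x => by rw [hK.DE, hg]
  have hπE : ∀ x, π (K.E g x) = K'.E (h ∘ g) (π x) := fun x => hπ.E g x
  have hcyc : ∀ x : K.X, K'.D (π x) = 0 →
      ∃ u y : K.X, K.D u = 0 ∧ K.D y = 0 ∧ x = y + K.E g u := by
    intro x hx
    have h1 : π (K.D x) = 0 := by rw [hπ.D, hx]
    obtain ⟨u, hu⟩ := (hπ.ker _).1 h1
    have h3 : K.D u = 0 := by
      apply hf
      rw [← hK.D_smul, ← hu, h2]
    refine ⟨u, x - K.E g u, h3, ?_, by abel⟩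
    have h4 := hDE u
    rw [h3, map_zero, add_zero] at h4
    rw [map_sub, hu, h4, sub_self]
  have hzg : ∑ i ∈ Finset.range m, (h ∘ z) i * (h ∘ g) i = 0 := by
    rw [← hg', ← hg, map_sum]
    exact Finset.sum_congr rfl fun i _ => (map_mul h (z i) (g i)).symm
  have hdd : ∀ c : ℕ →₀ K'.X, ∀ a : ℕ,
      K'.D (K'.D (c a) + K'.E (h ∘ g) (c (a + 1))) +
        K'.E (h ∘ g) (K'.D (c (a + 1)) + K'.E (h ∘ g) (c (a + 1 + 1))) = 0 := by
    intro c a
    have h1 := hK'.DE (h ∘ g) (c (a + 1))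
    rw [hzg, zero_smul] at h1
    rw [LinearMap.map_add, LinearMap.map_add, h2', hK'.E2, zero_add, add_zero, h1]
  have key : ∀ N : ℕ, ∀ b : ℕ →₀ K'.X, (∀ a, N < a → b a = 0) →
      (∀ a, K'.D (b a) + K'.E (h ∘ g) (b (a + 1)) = 0) → ε' (K'.q (b 0)) = 0 →
      ∃ u : ℕ →₀ K'.X, ∀ a, K'.D (u a) + K'.E (h ∘ g) (u (a + 1)) = b a := by
    intro N
    induction N with
    | zero =>
      intro b hb0 hbc hbq
      obtain ⟨x, hx⟩ := hπ.surj (b 0)
      have h5 := hbc 0
      rw [hb0 (0 + 1) (by omega), LinearMap.map_zero, add_zero, ← hx] at h5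
      obtain ⟨u, y, hu, hy, hxy⟩ := hcyc x h5
      have h6 : ε (K.q y) = 0 := by
        have h7 : K.q x = K.q y := by rw [hxy, LinearMap.map_add, hK.qE, add_zero]
        rw [← h7, ← hε, ← hπ.q, hx, hbq]
      obtain ⟨w, hw⟩ := hex y hy h6
      refine ⟨Finsupp.single 0 (π w) + Finsupp.single 1 (π u), fun a => ?_⟩
      rcases a with _ | _ | a
      · have e0 : (Finsupp.single 0 (π w) + Finsupp.single 1 (π u) : ℕ →₀ K'.X) 0 = π w := by
          simp
        have e1 : (Finsupp.single 0 (π w) + Finsupp.single 1 (π u) : ℕ →₀ K'.X) (0 + 1) = π u := by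
          simp
        rw [e0, e1, ← hπ.D, ← hπE, ← AddMonoidHom.map_add, hw, ← hxy, hx]
      · have e0 : (Finsupp.single 0 (π w) + Finsupp.single 1 (π u) : ℕ →₀ K'.X) (0 + 1) = π u := by
          simp
        have e1 : (Finsupp.single 0 (π w) + Finsupp.single 1 (π u) : ℕ →₀ K'.X) (0 + 1 + 1) = 0 := by
          simp
        rw [e0, e1, ← hπ.D, hu, AddMonoidHom.map_zero, LinearMap.map_zero, add_zero, hb0 (0 + 1) (by omega)]
      · have e0 : (Finsupp.single 0 (π w) + Finsupp.single 1 (π u) : ℕ →₀ K'.X) (a + 1 + 1)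
            = 0 := by
          simp
        have e1 : (Finsupp.single 0 (π w) + Finsupp.single 1 (π u) : ℕ →₀ K'.X) (a + 1 + 1 + 1)
            = 0 := by
          simp
        rw [e0, e1, LinearMap.map_zero, LinearMap.map_zero, add_zero, hb0 (a + 1 + 1) (by omega)]
    | succ N ih =>
      intro b hb0 hbc hbq
      obtain ⟨x', hx'⟩ := hπ.surj (b (N + 1))
      have h5 := hbc (N + 1)
      rw [hb0 (N + 1 + 1) (by omega), LinearMap.map_zero, add_zero, ← hx'] at h5
      obtain ⟨u, y, hu, hy, hxy⟩ := hcyc x' h5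
      obtain ⟨x, hx⟩ := hπ.surj (b N)
      have h6 : π (K.D x + K.E g x') = 0 := by
        rw [AddMonoidHom.map_add, hπ.D, hπE, hx, hx', hbc N]
      obtain ⟨w, hw⟩ := (hπ.ker _).1 h6
      have h7 : K.E g x' = K.E g y := by
        rw [hxy, LinearMap.map_add, hK.E2, add_zero]
      rw [h7] at hw
      have h8 : K.D (K.E g y) = f • K.D w := by
        have h9 := congrArg K.D hw
        rw [LinearMap.map_add, h2, zero_add, hK.D_smul] at h9
        exact h9
      have h10 : f • y = f • K.D w := by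
        have h11 := hDE y
        rw [hy, LinearMap.map_zero, add_zero] at h11
        rw [← h11, h8]
      have h12 : y = K.D w := by
        have h13 := hf (y - K.D w) (by rw [smul_sub, h10, sub_self])
        exact sub_eq_zero.1 h13
      obtain ⟨c, hc⟩ : ∃ c : ℕ →₀ K'.X,
          c = Finsupp.single (N + 2) (π u) + Finsupp.single (N + 1) (π w) := ⟨_, rfl⟩
      obtain ⟨Dc, hDca⟩ : ∃ Dc : ℕ →₀ K'.X,
          ∀ a, Dc a = K'.D (c a) + K'.E (h ∘ g) (c (a + 1)) :=
        ⟨gamL K'.D (K'.E (h ∘ g)) c, fun a => rfl⟩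
      have c0 : c 0 = 0 := by
        rw [hc, Finsupp.add_apply, Finsupp.single_eq_of_ne (by omega),
          Finsupp.single_eq_of_ne (by omega), add_zero]
      have c1 : c (N + 1) = π w := by
        rw [hc, Finsupp.add_apply, Finsupp.single_eq_of_ne (by omega), Finsupp.single_eq_same,
          zero_add]
      have c2 : c (N + 1 + 1) = π u := by
        rw [hc, Finsupp.add_apply, Finsupp.single_eq_same, Finsupp.single_eq_of_ne (by omega),
          add_zero]
      have c3 : ∀ a, N + 1 + 1 < a → c a = 0 := by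
        intro a ha
        rw [hc, Finsupp.add_apply, Finsupp.single_eq_of_ne (by omega),
          Finsupp.single_eq_of_ne (by omega), add_zero]
      obtain ⟨u', hu'⟩ := ih (b - Dc) (by
        intro a ha
        rw [Finsupp.sub_apply, hDca]
        rcases Nat.lt_or_ge (N + 1 + 1) a with h14 | h14
        · rw [hb0 a (by omega), c3 a h14, c3 (a + 1) (by omega), LinearMap.map_zero, LinearMap.map_zero, add_zero,
            sub_zero]
        · rcases Nat.eq_or_lt_of_le h14 with h15 | h15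
          · subst h15
            rw [hb0 (N + 1 + 1) (by omega), c2, c3 (N + 1 + 1 + 1) (by omega), LinearMap.map_zero, add_zero,
              ← hπ.D, hu, AddMonoidHom.map_zero, sub_zero]
          · have h16 : a = N + 1 := by omega
            subst h16
            rw [c1, c2, ← hx', ← hπ.D, ← hπE, ← AddMonoidHom.map_add, ← h12, ← hxy, sub_self]) (by
        intro a
        rw [Finsupp.sub_apply, Finsupp.sub_apply, hDca, hDca, LinearMap.map_sub, LinearMap.map_sub]
        have h14 := hdd c a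
        have h15 := hbc a
        have h16 : K'.D (b a) - K'.D (K'.D (c a) + K'.E (h ∘ g) (c (a + 1))) +
            (K'.E (h ∘ g) (b (a + 1)) -
              K'.E (h ∘ g) (K'.D (c (a + 1)) + K'.E (h ∘ g) (c (a + 1 + 1)))) =
            (K'.D (b a) + K'.E (h ∘ g) (b (a + 1))) -
            (K'.D (K'.D (c a) + K'.E (h ∘ g) (c (a + 1))) +
        K'.E (h ∘ g) (K'.D (c (a + 1)) + K'.E (h ∘ g) (c (a + 1 + 1)))) := by abel
        rw [h16, h14, h15, sub_zero]) (by
        rw [Finsupp.sub_apply, hDca, c0, LinearMap.map_zero, zero_add, LinearMap.map_sub, hK'.qE, sub_zero, hbq])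
      refine ⟨u' + c, fun a => ?_⟩
      have h17 := hu' a
      rw [Finsupp.sub_apply, hDca] at h17
      rw [Finsupp.add_apply, Finsupp.add_apply, LinearMap.map_add, LinearMap.map_add]
      have h18 : K'.D (u' a) + K'.D (c a) +
          (K'.E (h ∘ g) (u' (a + 1)) + K'.E (h ∘ g) (c (a + 1))) =
          (K'.D (u' a) + K'.E (h ∘ g) (u' (a + 1))) +
            (K'.D (c a) + K'.E (h ∘ g) (c (a + 1))) := by abel
      rw [h18, h17, sub_add_cancel]
  have hb' : ∀ a, K'.D ((b : ℕ →₀ K'.X) a) + K'.E (h ∘ g) ((b : ℕ →₀ K'.X) (a + 1)) = 0 := by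
    intro a
    rw [← K'.gam_D (h ∘ g) s b a, hb]
    rfl
  obtain ⟨u, hu⟩ := key ((b : ℕ →₀ K'.X).support.sup id) b (by
    intro a ha
    by_contra hne
    have h1 : a ∈ (b : ℕ →₀ K'.X).support := Finsupp.mem_support_iff.2 hne
    have h3 : a ≤ (b : ℕ →₀ K'.X).support.sup id := Finset.le_sup (f := id) h1
    omega) hb' hqb
  exact ⟨u, Finsupp.ext hu⟩

end MP8a
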