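import Pool.Agent.Lib_MP_8a48ad_ci.OkGam

/-! # Piece EXK: exactness, the Koszul step -/

set_option autoImplicit false

namespace MP8a

universe u

section

variable {A C : Type u} [CommRing A] [CommRing C] [Algebra A C]

/-- THE KOSZUL STEP.

PROOF. Let `(x, y)` be a cycle: `D y = 0`, `D x + z_m y = 0`, and `q x ∈ I_{m+1} = I_m + (z_m)`. `q (D x) + z_m (q y) = 0` so `z_m (q y) ∈ I_m` (`qD`), `q y ∈ I_m`, `y = D u`. Then `D (x + z_m u) = 0`.
`q (x + z_m u) = ι + z_m c` with `ι ∈ I_m` (`Ideal.mem_span_…`, `Set.image` of `{i | i < m+1} = {i | i < m} ∪ {m}`). Let `w = c • one`, `D w = 0`, `q w = c`. `x + z_m u - z_m w` is a cycle with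
`q = ι ∈ I_m`: `= D a`. So `(x, y) = (D a + z_m (w - u), D u) = D (a, w - u)` since `- D (w - u) = D u`. -/
theorem ex_kos {K : Cx A C} {z : ℕ → C} {m : ℕ} (h : K.Ok z m)
    (hex : ∀ x : K.X, K.D x = 0 → K.q x ∈ Ideal.span (z '' {i | i < m}) → ∃ u, K.D u = x)
    (hz : ∀ p : C, z m * p ∈ Ideal.span (z '' {i | i < m}) → p ∈ Ideal.span (z '' {i | i < m}))
    (e : ℤ) (x : (K.kos m (z m) e).X) (hx : (K.kos m (z m) e).D x = 0)
    (hq : (K.kos m (z m) e).q x ∈ Ideal.span (z '' {i | i < m + 1})) :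
    ∃ u, (K.kos m (z m) e).D u = x := by
  sorry

end

end MP8a
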