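import Pool.Agent.Lib_MP_8a48ad_ci.Cx

/-! # Piece GOK: the gradings -/

set_option autoImplicit false

namespace MP8a

universe u

variable {A C : Type u} [CommRing A] [CommRing C] [Algebra A C]

/-- `smul`: `(regM G).pr_smul`. -/
theorem gok_base (G : Gr C) (e : ℕ → ℤ) : (Cx.base A C G.c).GOk G 0 e := by
  refine ⟨G.c_c, G.fin, fun ha j x => (regM G).pr_smul ha j x, fun i x => ?_, fun t v _ j x => ?_,
    fun i x => rfl⟩
  · show G.c (i + 1) (0 : C) = 0
    exact map_zero _
  · show G.c (j + (t - 1)) (0 : C) = 0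
    exact map_zero _

/-- PROOF. `pr_pr`, `fin` as for `DGM.cone` in `Lib_MP_8a48ad_gt/Basic.lean` (use `Cx.GOk.exists_support`). `D_pr`: `pr (i+1) (D x + z y) = D (pr i x) + z (pr (i+1-e) y)` by `smul hz`; the second component: `pr (i+1+1-e) (- D y)`.
`E_pr`: the second component: `pr (j + (t-1) + 1 - e_m) (v_m x - E v y)`, `v_m` of degree `t - e_m`: `v_m (pr j x)`; `E v (pr (j+1-e_m) y)`. -/
theorem gok_kos {K : Cx A C} {G : Gr C} {m : ℕ} {e : ℕ → ℤ} (h : K.GOk G m e) {z : C}
    (hz : G.c (e m) z = z) : (K.kos m z (e m)).GOk G (m + 1) e := by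
  refine ⟨fun i j x => ?_, fun x => ?_, ?_, fun i x => ?_, fun t v hv j x => ?_, fun i x => h.q_pr i x.1⟩
  · show (K.pr i (K.pr j x.1), K.pr (i + 1 + -e m) (K.pr (j + 1 + -e m) x.2)) = _
    rw [h.pr_pr, h.pr_pr]
    by_cases hij : i = j
    · rw [if_pos hij, if_pos hij, if_pos (by rw [hij])]
      rfl
    · rw [if_neg hij, if_neg hij, if_neg (fun h' => hij (by linarith))]
      rfl
  · obtain ⟨s1, _, hs1⟩ := h.exists_support x.1
    obtain ⟨s2, _, hs2⟩ := h.exists_support x.2
    refine ⟨s1 ∪ s2.map (addRightEmbedding (-(1 + -e m))), ?_⟩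
    have h2 : ∑ i ∈ s1 ∪ s2.map (addRightEmbedding (-(1 + -e m))), K.pr (i + 1 + -e m) x.2 = x.2 := by
      have h3 := hs2 ((s1 ∪ s2.map (addRightEmbedding (-(1 + -e m)))).map
        (addRightEmbedding (1 + -e m))) (by
          intro i hi
          rw [Finset.mem_map]
          refine ⟨i + -(1 + -e m), Finset.mem_union_right _ (Finset.mem_map.2 ⟨i, hi, rfl⟩), ?_⟩
          show i + -(1 + -e m) + (1 + -e m) = i
          ring)
      rw [Finset.sum_map] at h3
      refine Eq.trans (Finset.sum_congr rfl fun i _ => ?_) h3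
      show K.pr (i + 1 + -e m) x.2 = K.pr (i + (1 + -e m)) x.2
      rw [add_assoc]
    refine Prod.ext ?_ ?_
    · rw [Prod.fst_sum]
      exact hs1 _ Finset.subset_union_left
    · rw [Prod.snd_sum]
      exact h2
  · intro i a ha j x
    refine Prod.ext (h.smul ha j x.1) ?_
    show K.pr (i + j + 1 + -e m) (a • x.2) = a • K.pr (j + 1 + -e m) x.2
    have h1 : i + j + 1 + -e m = i + (j + 1 + -e m) := by ring
    rw [h1]
    exact h.smul ha _ x.2
  · refine Prod.ext ?_ ?_
    · show K.pr (i + 1) (K.D x.1 + z • x.2) = K.D (K.pr i x.1) + z • K.pr (i + 1 + -e m) x.2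
      rw [map_add, h.D_pr]
      have h1 := h.smul hz (i + 1 + -e m) x.2
      have h2 : e m + (i + 1 + -e m) = i + 1 := by ring
      rw [h2] at h1
      rw [h1]
    · show K.pr (i + 1 + 1 + -e m) (-(K.D x.2)) = -(K.D (K.pr (i + 1 + -e m) x.2))
      have h1 : i + 1 + 1 + -e m = i + 1 + -e m + 1 := by ring
      rw [h1, map_neg, h.D_pr]
  · refine Prod.ext (h.E_pr t v (fun i hi => hv i (by omega)) j x.1) ?_
    show K.pr (j + (t - 1) + 1 + -e m) (v m • x.1 - K.E v x.2) =
      v m • K.pr j x.1 - K.E v (K.pr (j + 1 + -e m) x.2)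
    have h1 := h.smul (hv m (by omega)) j x.1
    have h2 := h.E_pr t v (fun i hi => hv i (by omega)) (j + 1 + -e m) x.2
    have h3 : t - e m + j = j + (t - 1) + 1 + -e m := by ring
    have h4 : j + 1 + -e m + (t - 1) = j + (t - 1) + 1 + -e m := by ring
    rw [h3] at h1
    rw [h4] at h2
    rw [map_sub, h1, h2]

/-- PROOF. `pr_pr`, `fin` as for `gamD` in `Defs.lean` (`gamPr_apply`; `Cx.GOk.exists_support`). `D_pr`: coefficient `a`: `pr (i+1-as) (D b_a + E g b_{a+1})`; `E_pr` for `t = s + 2`, `v = g`,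
`j = i - (a+1)s`: `j + (t - 1) = i + 1 - as`. -/
theorem gok_gam {K : Cx A C} {G : Gr C} {m : ℕ} {e : ℕ → ℤ} (h : K.GOk G m e) {g : ℕ → C} {s : ℤ}
    (hg : ∀ i < m, G.c (s + 2 - e i) (g i) = g i) : (K.gam g s).GOk G m e := by
  refine ⟨fun i j b => ?_, fun b => ?_, ?_, fun i b => ?_, fun t v hv j b => ?_, fun i b => ?_⟩
  · ext a
    show gamPr K.pr s i (gamPr K.pr s j b) a = _
    rw [gamPr_apply, gamPr_apply, h.pr_pr]
    by_cases hij : i = j
    · rw [if_pos (by rw [hij]), if_pos hij]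
      rfl
    · rw [if_neg (fun h' => hij (sub_left_injective h')), if_neg hij]
      rfl
  · classical
    choose S hS0 hS using fun a : ℕ => h.exists_support (b a)
    refine ⟨b.support.biUnion fun a => (S a).map (addRightEmbedding (a * s)), ?_⟩
    ext a
    rw [Finsupp.finsetSum_apply]
    show ∑ i ∈ b.support.biUnion fun a => (S a).map (addRightEmbedding (a * s)),
      K.pr (i - a * s) (b a) = b a
    by_cases ha : b a = 0
    · rw [ha]
      simp
    · have h1 := hS a ((b.support.biUnion fun a => (S a).map (addRightEmbedding (a * s))).map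
        (addRightEmbedding (-(a * s)))) (by
          intro i hi
          rw [Finset.mem_map]
          refine ⟨i + a * s, Finset.mem_biUnion.2 ⟨a, Finsupp.mem_support_iff.2 ha,
            Finset.mem_map.2 ⟨i, hi, rfl⟩⟩, ?_⟩
          simp)
      rw [Finset.sum_map] at h1
      exact h1
  · intro i c hc j b
    ext a
    show K.pr (i + j - a * s) (c • b a) = c • K.pr (j - a * s) (b a)
    have h1 : i + j - a * s = i + (j - a * s) := by ring
    rw [h1]
    exact h.smul hc _ _
  · ext a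
    show K.pr (i + 1 - a * s) (K.D (b a) + K.E g (b (a + 1))) =
      K.D (K.pr (i - a * s) (b a)) + K.E g (K.pr (i - ((a + 1 : ℕ) : ℤ) * s) (b (a + 1)))
    have h1 := h.D_pr (i - a * s) (b a)
    have h2 := h.E_pr (s + 2) g hg (i - ((a + 1 : ℕ) : ℤ) * s) (b (a + 1))
    have h3 : i - a * s + 1 = i + 1 - a * s := by ring
    have h4 : i - ((a + 1 : ℕ) : ℤ) * s + (s + 2 - 1) = i + 1 - a * s := by
      push_cast
      ring
    rw [h3] at h1
    rw [h4] at h2
    rw [map_add, h1, h2]
  · ext a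
    show K.pr (j + (t - 1) - a * s) (K.E v (b a)) = K.E v (K.pr (j - a * s) (b a))
    have h1 := h.E_pr t v hv (j - a * s) (b a)
    have h2 : j - a * s + (t - 1) = j + (t - 1) - a * s := by ring
    rw [h2] at h1
    exact h1
  · show K.q (K.pr (i - ((0 : ℕ) : ℤ) * s) (b 0)) = G.c i (K.q (b 0))
    rw [Nat.cast_zero, zero_mul, sub_zero]
    exact h.q_pr i _

theorem gok_Kx (G : Gr C) (z : ℕ → C) (e : ℕ → ℤ) (m : ℕ) (hz : ∀ i < m, G.c (e i) (z i) = z i) :
    (Kx A G.c z e m).GOk G m e := by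
  induction m with
  | zero => exact gok_base G e
  | succ m ih => exact gok_kos (ih fun i hi => hz i (by omega)) (hz m (by omega))

theorem gok_Tx {K : Cx A C} {G : Gr C} {m : ℕ} {e : ℕ → ℤ} (h : K.GOk G m e) (g : ℕ → ℕ → C)
    (s : ℕ → ℤ) (j : ℕ) (hg : ∀ l < j, ∀ i < m, G.c (s l + 2 - e i) (g l i) = g l i) :
    (Tx K g s j).GOk G m e := by
  induction j with
  | zero => exact h
  | succ j ih => exact gok_gam (ih fun l hl => hg l (by omega)) (hg j (by omega))

end MP8a
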