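import Pool.Agent.Lib_MP_8a48ad_ci.QI

/-! # Piece GQB: the property `GQ` for `S ⊗_k N` -/

set_option autoImplicit false

namespace MP8a

open TensorProduct

universe u

variable {k : Type u} [Field k] {n : ℕ} {R : Type u} [CommRing R] [Algebra k R]
  [Algebra R (Sn k n)] {GR : Gr R}

attribute [local instance] kMod kTower

/-- Two maps `M → X' → X`, the composition bijective in cohomology and the second one a trivial fibration: the cone of the first is
acyclic.

PROOF. Let `(x, b)` be a cycle of the cone (`DGM.cone_d`): `d b = 0`, `d x + Λ b = 0`. Then `p (Λ b) = d (- p x)`, so `b = d b'` (`hP.1`). `x + Λ b'` is a cycle; `p (x + Λ b')` is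
`P b'' + d u` with `d b'' = 0` (`hP.2`), `u = p u'`; so `x + Λ b' - Λ b'' - d u'` is a cycle in `ker p`, `= d y`, `p y = 0`. Hence `(x, b) = d (u' + y, b'' - b')`. -/
theorem acy_cone_of {A : Type u} [CommRing A] {G : Gr A} {M X' X : DGM G} {Λ : M.X →ₗ[A] X'.X}
    (hΛ : IsMor M X' 0 Λ) {e' : ℤ} {p : X'.X →ₗ[A] X.X} (hp : IsMor X' X e' p) (hq : SQ X' X p)
    (hP : IsQis M X (p ∘ₗ Λ)) : Acy (M.cone X' Λ hΛ) := by
  rintro ⟨x, b⟩ hxb
  rw [DGM.cone_d] at hxb
  have h1 : X'.d x + Λ b = 0 := congrArg Prod.fst hxb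
  have h2 : M.d b = 0 := by
    have h3 : -(M.d b) = 0 := congrArg Prod.snd hxb
    exact neg_eq_zero.1 h3
  obtain ⟨b', hb'⟩ := hP.1 b h2 (-(p x)) (by
    rw [map_neg, hp.d, LinearMap.comp_apply, ← map_neg]
    congr 1
    rw [neg_eq_iff_add_eq_zero]
    exact h1)
  have h4 : X'.d (x + Λ b') = 0 := by
    rw [map_add, hΛ.d, hb', h1]
  obtain ⟨b'', u, hb'', hu⟩ := hP.2 (p (x + Λ b')) (by rw [hp.d, h4, map_zero])
  obtain ⟨u', rfl⟩ := hq.1 u
  obtain ⟨y, hy1, hy2⟩ := hq.2 (x + Λ b' - Λ b'' - X'.d u') (by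
    rw [map_sub, map_sub, hu, LinearMap.comp_apply, hp.d]
    abel) (by
    rw [map_sub, map_sub, h4, hΛ.d, hb'', map_zero, X'.d_d, sub_zero, sub_zero])
  refine ⟨(u' + y, b'' - b'), ?_⟩
  rw [DGM.cone_d]
  refine Prod.ext ?_ ?_
  · change X'.d (u' + y) + Λ (b'' - b') = x
    rw [map_add, hy2, map_sub]
    abel
  · change -(M.d (b'' - b')) = b
    rw [map_sub, hb'', hb', zero_sub, neg_neg]

private theorem gq_pr (N : DGM (grS k n)) (j w : ℤ) (s : Sn k n) (v : N.X) (hv : N.pr w v = v) :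
    prT N (j + w) (s ⊗ₜ v) = ((grS k n).c j s) ⊗ₜ v := by
  refine (grS k n).ind (P := fun s => prT N (j + w) (s ⊗ₜ v) = ((grS k n).c j s) ⊗ₜ v) ?_ ?_ ?_ s
  · rw [TensorProduct.zero_tmul, map_zero, map_zero, TensorProduct.zero_tmul]
  · intro a b ha hb
    rw [TensorProduct.add_tmul, map_add, map_add, TensorProduct.add_tmul, ha, hb]
  · intro l a ha
    rw [prT_tmul_hom N (j + w) ha]
    by_cases h : j = l
    · subst h
      rw [add_sub_cancel_left, hv, ha]
    · have h1 : N.pr (j + w - l) v = 0 := N.pr_ne hv (by omega)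
      have h2 : (grS k n).c j a = 0 := by rw [← ha, (grS k n).c_c, if_neg h]
      rw [h1, h2, TensorProduct.tmul_zero, TensorProduct.zero_tmul]

/-- pure tensors -/
private noncomputable def gqt (hS : Setup k n GR) (N : DGM (grS k n)) (s : Sn k n) (v : N.X) :
    (restr hS.compat (FT N)).X := (s ⊗ₜ v : Sn k n ⊗[k] N.X)

private theorem gqt_smul (hS : Setup k n GR) (N : DGM (grS k n)) (a : R) (s : Sn k n) (v : N.X) :
    a • gqt hS N s v = gqt hS N (algebraMap R (Sn k n) a * s) v :=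
  TensorProduct.smul_tmul' (algebraMap R (Sn k n) a) s v

private theorem gqt_d (hS : Setup k n GR) (N : DGM (grS k n)) (s : Sn k n) (v : N.X) :
    (restr hS.compat (FT N)).d (gqt hS N s v) = gqt hS N s (N.d v) := rfl

private theorem gqt_add (hS : Setup k n GR) (N : DGM (grS k n)) (s s' : Sn k n) (v : N.X) :
    gqt hS N (s + s') v = gqt hS N s v + gqt hS N s' v := TensorProduct.add_tmul s s' v

private theorem gqt_zero_left (hS : Setup k n GR) (N : DGM (grS k n)) (v : N.X) :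
    gqt hS N 0 v = 0 := TensorProduct.zero_tmul _ v

private theorem gqt_zero_right (hS : Setup k n GR) (N : DGM (grS k n)) (s : Sn k n) :
    gqt hS N s 0 = 0 := TensorProduct.tmul_zero _ s

private theorem gqt_pr (hS : Setup k n GR) (N : DGM (grS k n)) (j w : ℤ) (s : Sn k n) (v : N.X)
    (hv : N.pr w v = v) : (restr hS.compat (FT N)).pr (j + w) (gqt hS N s v) =
      gqt hS N ((grS k n).c j s) v := gq_pr N j w s v hv

/-- the map `x ↦ π x ⊗ v` -/
private noncomputable def gqPhi (hS : Setup k n GR) {B : DGM GR}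
    (π : B.X →ₗ[R] (SR hS.compat).X) (N : DGM (grS k n)) (v : N.X) :
    B.X →ₗ[R] (restr hS.compat (FT N)).X where
  toFun x := gqt hS N (π x) v
  map_add' x y := by
    rw [map_add]
    exact gqt_add hS N (π x) (π y) v
  map_smul' a x := by
    have h1 : (π (a • x) : Sn k n) = algebraMap R (Sn k n) a * π x := by
      rw [map_smul]
      exact Algebra.smul_def a (show Sn k n from π x)
    rw [RingHom.id_apply, gqt_smul]
    exact congrArg (fun s => gqt hS N s v) h1

private theorem gqPhi_apply (hS : Setup k n GR) {B : DGM GR}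
    (π : B.X →ₗ[R] (SR hS.compat).X) (N : DGM (grS k n)) (v : N.X) (x : B.X) :
    gqPhi hS π N v x = gqt hS N (π x) v := rfl

private theorem gqPhi_mor (hS : Setup k n GR) {B : DGM GR} {π : B.X →ₗ[R] (SR hS.compat).X}
    (hπ : IsMor B (SR hS.compat) 0 π) (N : DGM (grS k n)) {w : ℤ} {v : N.X} (hv : N.pr w v = v)
    (hc : N.d v = 0) : IsMor B (restr hS.compat (FT N)) w (gqPhi hS π N v) := by
  constructor
  · intro i x
    rw [gqPhi_apply, gqPhi_apply, gqt_pr hS N i w _ v hv]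
    have h := hπ.pr i x
    rw [add_zero] at h
    exact congrArg (fun s => gqt hS N s v) h
  · intro x
    rw [gqPhi_apply, gqPhi_apply, gqt_d, hc, gqt_zero_right]
    have h : π (B.d x) = 0 := by
      rw [← hπ.d]
      rfl
    rw [h]
    exact (gqt_zero_left hS N v).symm

/-- THE BASE CASE.

PROOF. Let `p : X' → F = restr (FT N)` be a trivial fibration of degree `e'`, `Y`, `γ`, `y : X' → Y 0` of degree `e`. Take `I, w, v, ℓ` from `exists_hbasis N`. For each `i` the map
`φ_i : B → F`, `x ↦ π x ⊗ v i` is a morphism of degree `w i` (`prT_tmul_hom` / `FT`, use homogeneous components of `π x`; `R`-linear: `restr_smul` and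
`TensorProduct.smul_tmul'`). `hLP` gives `λ_i : B → X'` of degree `w i - e'` with `p (λ_i x) = φ_i x`. Let `w' i = w i - e'` and `Λ = Finsupp.lsum R λ : sumD B w' → X'`, a morphism
of degree `0` (`isMor_sum`); `p ∘ Λ` is bijective in cohomology (`isQis_sum`), so `Z = (sumD B w').cone X' Λ` is acyclic (`acy_cone_of`). By `hγ 0`, `BGh`:
`γ 0 ∘ y ∘ λ_i = d H_i + H_i d` with `H_i : B → Y 1` of degree `w i - e' + e - 1`. Let `H = Finsupp.lsum R H_i : sumD B w' → Y 1`, homogeneous of degree `e - 1`, and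
`γ 0 ∘ y ∘ Λ = d H + H d` (check on `single i x`). Then `vv = (γ 0 ∘ y).coprod H : Z → Y 1`, `(x, b) ↦ γ 0 (y x) + H b` is a morphism of degree `e`: `vv (d (x, b)) =
γ 0 (y (d x + Λ b)) - H (d b) = d (γ 0 (y x)) + d (H b)`. So `cmp Y γ 1 ∘ y = γ 0 ∘ y = vv ∘ inl` (`isMor_cone_inl`) is `NZ`. -/
theorem GQ_base (hS : Setup k n GR) {B : DGM GR} (hLP : LP B) {π : B.X →ₗ[R] (SR hS.compat).X}
    (hπ : IsMor B (SR hS.compat) 0 π) (hq : SQ B (SR hS.compat) π) (N : DGM (grS k n)) :
    GQ (BGh B) (restr hS.compat (FT N)) 1 := by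
  intro X' e' p hp hsq Y γ hγ hγB e y hy
  obtain ⟨I, w, v, ℓ, hv⟩ := exists_hbasis N
  have h1 : ∀ i, ∃ φ' : B.X →ₗ[R] X'.X, IsMor B X' (w i - e') φ' ∧
      ∀ x, p (φ' x) = gqPhi hS π N (v i) x := fun i =>
    hLP X' _ e' p hp hsq (w i - e') (gqPhi hS π N (v i))
      ((gqPhi_mor hS hπ N (hv.pr i) (hv.cyc i)).cast (by ring))
  choose lam hlam hlamp using h1
  obtain ⟨w', hw'⟩ : ∃ w' : I → ℤ, ∀ i, w' i = w i - e' := ⟨fun i => w i - e', fun _ => rfl⟩
  have hΛ : IsMor (sumD B w') X' 0 (Finsupp.lsum R lam) :=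
    isMor_sum B X' w' 0 lam fun i => (hlam i).cast (by rw [hw' i, zero_add])
  have hPs : ∀ (i : I) (x : B.X), (p ∘ₗ Finsupp.lsum R lam) (Finsupp.single i x) =
      ((π x : Sn k n) ⊗ₜ v i : Sn k n ⊗[k] N.X) := by
    intro i x
    rw [LinearMap.comp_apply, Finsupp.lsum_single, hlamp]
    rfl
  have hQis : IsQis (sumD B w') (restr hS.compat (FT N)) (p ∘ₗ Finsupp.lsum R lam) :=
    isQis_sum hS N hv w' hπ hq _ hPs
  have hacy : Acy ((sumD B w').cone X' (Finsupp.lsum R lam) hΛ) := acy_cone_of hΛ hp hsq hQis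
  have hNH : ∀ i, NH B (Y 1) (w i - e' + e) (γ 0 ∘ₗ (y ∘ₗ lam i)) := fun i =>
    hγB 0 (w i - e' + e) (y ∘ₗ lam i) (hy.comp (hlam i))
  choose H hH1 hH2 using hNH
  have hyγ : IsMor X' (Y 1) e (γ 0 ∘ₗ y) := (hγ 0).comp0 hy
  have hHpr : ∀ i (b : I →₀ B.X), (Y 1).pr (i + (e - 1)) (Finsupp.lsum R H b) =
      Finsupp.lsum R H ((sumD B w').pr i b) := by
    intro i b
    induction b using Finsupp.induction_linear with
    | zero => rw [map_zero, map_zero, map_zero, map_zero]
    | add b b' hb hb' => rw [map_add, map_add, map_add, map_add, hb, hb']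
    | single a x =>
      rw [sumPr_single, Finsupp.lsum_single, Finsupp.lsum_single, ← hH1 a, hw']
      congr 2
      ring
  have hHd : ∀ b : I →₀ B.X, γ 0 (y (Finsupp.lsum R lam b)) =
      (Y 1).d (Finsupp.lsum R H b) + Finsupp.lsum R H ((sumD B w').d b) := by
    intro b
    induction b using Finsupp.induction_linear with
    | zero => rw [map_zero, map_zero, map_zero, map_zero, map_zero, map_zero, map_zero, add_zero]
    | add b b' hb hb' =>
      rw [map_add, map_add, map_add, map_add, map_add, map_add, map_add, hb, hb']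
      abel
    | single a x =>
      rw [sumD_d_single, Finsupp.lsum_single, Finsupp.lsum_single, Finsupp.lsum_single]
      exact hH2 a x
  refine ⟨(sumD B w').cone X' (Finsupp.lsum R lam) hΛ, LinearMap.inl R X'.X (I →₀ B.X),
    (γ 0 ∘ₗ y).coprod (Finsupp.lsum R H), hacy, isMor_cone_inl _ _ _ _, ?_, ?_⟩
  · constructor
    · intro i x
      change (Y 1).pr (i + e) ((γ 0 ∘ₗ y) x.1 + Finsupp.lsum R H x.2) =
        (γ 0 ∘ₗ y) (X'.pr i x.1) + Finsupp.lsum R H ((sumD B w').pr (i + 1) x.2)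
      have h2 := hHpr (i + 1) x.2
      have h3 : i + 1 + (e - 1) = i + e := by ring
      rw [h3] at h2
      rw [map_add, hyγ.pr, h2]
    · intro x
      rw [DGM.cone_d]
      change (Y 1).d ((γ 0 ∘ₗ y) x.1 + Finsupp.lsum R H x.2) =
        (γ 0 ∘ₗ y) (X'.d x.1 + Finsupp.lsum R lam x.2) +
          Finsupp.lsum R H (-((sumD B w').d x.2))
      rw [map_add, map_add, map_neg, hyγ.d]
      have h2 : (γ 0 ∘ₗ y) (Finsupp.lsum R lam x.2) =
          (Y 1).d (Finsupp.lsum R H x.2) + Finsupp.lsum R H ((sumD B w').d x.2) := hHd x.2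
      rw [h2]
      abel
  · ext x
    change γ 0 (y x) = γ 0 (y x) + Finsupp.lsum R H 0
    rw [map_zero, add_zero]

end MP8a
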