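import Pool.Agent.Lib_MP_8a48ad_ci.GQRet
import Pool.Agent.Lib_MP_8a48ad_ci.GQSes
import Pool.Agent.Lib_MP_8a48ad_gt.KosStep

/-! # From `S ⊗_k N` to `N` (as in `Lib_MP_8a48ad_gt/KosStep.lean`) -/

set_option autoImplicit false

namespace MP8a

open TensorProduct

universe u

section

variable {A : Type u} [CommRing A] {G : Gr A} {𝒢 : ∀ M N : DGM G, (M.X →ₗ[A] N.X) → Prop}

/-- the sign of a degree -/
def sg (i : ℤ) : ℤ := if Even i then 1 else -1

theorem sg_sq (i : ℤ) : sg i * sg i = 1 := by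
  unfold sg
  split_ifs <;> rfl

theorem sg_add_one (i : ℤ) : sg (i + 1) = -sg i := by
  unfold sg
  by_cases h : Even i
  · rw [if_pos h, if_neg (by rw [Int.even_add_one]; exact not_not.2 h)]
  · rw [if_neg h, if_pos (by rw [Int.even_add_one]; exact h), neg_neg]

theorem sg_even_add {i : ℤ} (h : Even i) (j : ℤ) : sg (i + j) = sg j := by
  unfold sg
  by_cases hj : Even j
  · rw [if_pos (h.add hj), if_pos hj]
  · rw [if_neg (fun h' => hj ((Int.even_add.1 h').1 h)), if_neg hj]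

theorem sgn_finite (M : DGM G) (x : M.X) :
    (Function.support fun i : ℤ => sg i • M.pr i x).Finite := by
  obtain ⟨s, hs, _⟩ := M.exists_support x
  refine s.finite_toSet.subset fun i hi => ?_
  by_contra h
  apply hi
  change sg i • M.pr i x = 0
  rw [hs i h, smul_zero]

/-- `x ↦ (-1)^i x` for `x` of degree `i`, as an additive map -/
noncomputable def sgnA (M : DGM G) : M.X →+ M.X where
  toFun x := ∑ᶠ i : ℤ, sg i • M.pr i x
  map_zero' := by simp
  map_add' x y := by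
    rw [← finsum_add_distrib (sgn_finite M x) (sgn_finite M y)]
    refine finsum_congr fun i => ?_
    rw [map_add, smul_add]

theorem sgnA_hom (M : DGM G) {i : ℤ} {x : M.X} (hx : M.pr i x = x) : sgnA M x = sg i • x := by
  change ∑ᶠ j : ℤ, sg j • M.pr j x = sg i • x
  rw [finsum_eq_single _ i fun j hj => by rw [M.pr_ne hx hj, smul_zero], hx]

/-- `x ↦ (-1)^i x` for `x` of degree `i` -/
noncomputable def sgn (M : DGM G) : M.X →ₗ[A] M.X where
  toFun := sgnA M
  map_add' := map_add (sgnA M)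
  map_smul' := by
    intro a x
    rw [RingHom.id_apply]
    refine G.ind (P := fun a => sgnA M (a • x) = a • sgnA M x) (by simp) ?_ ?_ a
    · intro a b ha hb
      rw [add_smul, map_add, ha, hb, add_smul]
    · intro i a ha
      refine M.ind (P := fun x => sgnA M (a • x) = a • sgnA M x) (by simp) ?_ ?_ x
      · intro x y hx hy
        rw [smul_add, map_add, hx, hy, map_add, smul_add]
      · intro j x hx
        by_cases hi : Even i
        · rw [sgnA_hom M (M.smul ha hx), sgnA_hom M hx, sg_even_add hi, smul_comm]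
        · have h0 : a = 0 := by
            rw [← ha]
            exact G.odd (Int.not_even_iff_odd.1 hi) a
          rw [h0, zero_smul, zero_smul, map_zero]

theorem sgn_hom (M : DGM G) {i : ℤ} {x : M.X} (hx : M.pr i x = x) : sgn M x = sg i • x :=
  sgnA_hom M hx

theorem sgn_sgn (M : DGM G) (x : M.X) : sgn M (sgn M x) = x := by
  refine M.ind (P := fun x => sgn M (sgn M x) = x) (by simp) ?_ ?_ x
  · intro x y hx hy
    rw [map_add, map_add, hx, hy]
  · intro i x hx
    rw [sgn_hom M hx, map_zsmul, sgn_hom M hx, smul_smul, sg_sq, one_smul]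

theorem sgn_pr (M : DGM G) (i : ℤ) (x : M.X) : M.pr i (sgn M x) = sgn M (M.pr i x) := by
  refine M.ind (P := fun x => M.pr i (sgn M x) = sgn M (M.pr i x)) (by simp) ?_ ?_ x
  · intro x y hx hy
    rw [map_add, map_add, map_add, map_add, hx, hy]
  · intro j x hx
    rw [sgn_hom M hx, map_zsmul]
    by_cases h : i = j
    · subst h
      rw [hx, sgn_hom M hx]
    · rw [M.pr_ne hx h, smul_zero, map_zero]

theorem sgn_d (M : DGM G) (x : M.X) : M.d (sgn M x) = -sgn M (M.d x) := by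
  refine M.ind (P := fun x => M.d (sgn M x) = -sgn M (M.d x)) (by simp) ?_ ?_ x
  · intro x y hx hy
    rw [map_add, map_add, map_add, map_add, hx, hy]
    abel
  · intro j x hx
    rw [sgn_hom M hx, map_zsmul, sgn_hom M (M.d_hom hx), sg_add_one, neg_smul, neg_neg]

theorem koss_regr_GQ {X : DGM G} {g : ℕ} (e0 : ℤ) (h : GQ 𝒢 X g) :
    GQ 𝒢 (X.regr e0) g := by
  intro X' e' p hp hq Y γ hγ hgh e y hy
  refine h X' (e' + e0) p ⟨fun i x => ?_, hp.d⟩ hq Y γ hγ hgh e y hy
  rw [← add_assoc]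
  exact hp.pr i x

theorem koss_of_regr_GQ {X : DGM G} {g : ℕ} (e0 : ℤ) (h : GQ 𝒢 (X.regr e0) g) :
    GQ 𝒢 X g := by
  intro X' e' p hp hq Y γ hγ hgh e y hy
  refine h X' (e' - e0) p ⟨fun i x => ?_, hp.d⟩ hq Y γ hγ hgh e y hy
  have h1 := hp.pr i x
  have h2 : i + (e' - e0) + e0 = i + e' := by ring
  change X.pr (i + (e' - e0) + e0) (p x) = p (X'.pr i x)
  rw [h2, h1]

/-- `M` with the opposite differential is isomorphic to `M` -/
noncomputable def sgnE (M : DGM G) : (kossNeg M).X ≃ₗ[A] M.X :=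
  LinearEquiv.ofLinear (sgn M) (sgn M) (LinearMap.ext fun x => sgn_sgn M x)
    (LinearMap.ext fun x => sgn_sgn M x)

theorem koss_neg_GQ {X : DGM G} {g : ℕ} (h : GQ 𝒢 X g) : GQ 𝒢 (kossNeg X) g := by
  refine GQ_iso (M := kossNeg X) (N := X) (sgnE X) ⟨fun i x => ?_, fun x => ?_⟩ h
  · rw [add_zero]
    exact sgn_pr X i x
  · change X.d (sgn X x) = sgn X (-(X.d x))
    rw [sgn_d, map_neg]

theorem koss_sh_GQ {X : DGM G} {g : ℕ} (h : GQ 𝒢 X g) :
    GQ 𝒢 (X.sh 1) g := by
  refine GQ_iso (M := X.sh 1) (N := kossNeg (X.regr 1)) (LinearEquiv.refl A X.X) ?_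
    (koss_neg_GQ (koss_regr_GQ 1 h))
  refine ⟨fun i x => by rw [add_zero]; rfl, fun x => ?_⟩
  rw [DGM.sh_d_one]
  rfl

/-- the property `GQ` passes along trivial fibrations -/
theorem koss_sq_GQ {C X : DGM G} {P : C.X →ₗ[A] X.X} (hP : IsMor C X 0 P)
    (hPq : SQ C X P) {g : ℕ} (h : GQ 𝒢 C g) : GQ 𝒢 X g := by
  intro X' e' p hp hq Y γ hγ hgh e y hy
  have hp0 : IsMor X' (X.regr e') 0 p := hp.to_regr
  have hP0 : IsMor (C.regr e') (X.regr e') 0 P :=
    ⟨fun j x => hP.pr (j + e') x |> fun h1 => by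
      rw [add_zero] at h1 ⊢
      exact h1, hP.d⟩
  have hD : IsMor (X'.prod (C.regr e')) (X.regr e') 0 (p.coprod (-P)) := hp0.coprod hP0.neg
  have hU1 := hD.ker_pr
  have hU2 := hD.ker_d
  have hmem : ∀ x : X'.X × C.X, x ∈ LinearMap.ker (p.coprod (-P)) ↔ p x.1 = P x.2 := by
    intro x
    rw [LinearMap.mem_ker]
    change p x.1 + -(P x.2) = 0 ↔ p x.1 = P x.2
    rw [← sub_eq_add_neg, sub_eq_zero]
  set U : Submodule A (X'.X × C.X) := LinearMap.ker (p.coprod (-P)) with hU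
  have hsub : IsMor ((X'.prod (C.regr e')).sub U hU1 hU2) (X'.prod (C.regr e')) 0 U.subtype :=
    isMor_subtype (X'.prod (C.regr e')) U hU1 hU2
  have hfst : IsMor ((X'.prod (C.regr e')).sub U hU1 hU2) X' 0
      ((LinearMap.fst A X'.X C.X) ∘ₗ U.subtype) :=
    (isMor_fst X' (C.regr e')).comp0 hsub
  have hsnd : IsMor ((X'.prod (C.regr e')).sub U hU1 hU2) C e'
      ((LinearMap.snd A X'.X C.X) ∘ₗ U.subtype) :=
    ⟨fun _ _ => rfl, fun _ => rfl⟩
  have hSQ : SQ ((X'.prod (C.regr e')).sub U hU1 hU2) C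
      ((LinearMap.snd A X'.X C.X) ∘ₗ U.subtype) := by
    constructor
    · intro n
      obtain ⟨x, hx⟩ := hq.1 (P n)
      exact ⟨⟨(x, n), (hmem (x, n)).2 hx⟩, rfl⟩
    · intro x hx hdx
      have hx2 : x.1.2 = 0 := hx
      have hx1 : p x.1.1 = 0 := by
        rw [(hmem x.1).1 x.2, hx2, map_zero]
      have hd1 : X'.d x.1.1 = 0 := congrArg (fun z => Prod.fst (Subtype.val z)) hdx
      obtain ⟨w, hw, hdw⟩ := hq.2 x.1.1 hx1 hd1
      refine ⟨⟨(w, 0), (hmem (w, 0)).2 ?_⟩, rfl, ?_⟩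
      · change p w = P 0
        rw [hw, map_zero]
      · apply Subtype.ext
        refine Prod.ext ?_ ?_
        · exact hdw
        · change C.d 0 = x.1.2
          rw [hx2, map_zero]
  have hSQ' : SQ ((X'.prod (C.regr e')).sub U hU1 hU2) X'
      ((LinearMap.fst A X'.X C.X) ∘ₗ U.subtype) := by
    constructor
    · intro x
      obtain ⟨n, hn⟩ := hPq.1 (p x)
      exact ⟨⟨(x, n), (hmem (x, n)).2 hn.symm⟩, rfl⟩
    · intro x hx hdx
      have hx2 : x.1.1 = 0 := hx
      have hx1 : P x.1.2 = 0 := by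
        rw [← (hmem x.1).1 x.2, hx2, map_zero]
      have hd1 : C.d x.1.2 = 0 := congrArg (fun z => Prod.snd (Subtype.val z)) hdx
      obtain ⟨w, hw, hdw⟩ := hPq.2 x.1.2 hx1 hd1
      refine ⟨⟨(0, w), (hmem (0, w)).2 ?_⟩, rfl, ?_⟩
      · change p 0 = P w
        rw [hw, map_zero]
      · apply Subtype.ext
        refine Prod.ext ?_ ?_
        · change X'.d 0 = x.1.1
          rw [hx2, map_zero]
        · exact hdw
  have hNZ := h _ e' _ hsnd hSQ Y γ hγ hgh e _ (hy.comp0' hfst)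
  exact koss_descend hfst hSQ' hNZ

/-- the third module of an exact sequence -/
theorem koss_third_GQ {X1 X2 X3 : DGM G} {e1 : ℤ}
    {i : X1.X →ₗ[A] X2.X} {q : X2.X →ₗ[A] X3.X} (hi : IsMor X1 X2 e1 i) (hq : IsMor X2 X3 0 q)
    (h : IsSES X1 X2 X3 i q) {g g' : ℕ} (h1 : GQ 𝒢 X1 g) (h2 : GQ 𝒢 X2 g') :
    GQ 𝒢 X3 (g' + g) := by
  have hi' : IsMor X1 (X2.regr e1) 0 i := hi.to_regr
  have hC : GQ 𝒢 (X1.cone (X2.regr e1) i hi') (g' + g) :=
    GQ_ses (isMor_cone_inl X1 (X2.regr e1) i hi') (isMor_cone_snd X1 (X2.regr e1) i hi')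
      (isSES_cone X1 (X2.regr e1) i hi') (koss_regr_GQ e1 h2) (koss_sh_GQ h1)
  refine koss_of_regr_GQ e1 (koss_sq_GQ (C := X1.cone (X2.regr e1) i hi') (X := X3.regr e1)
    (P := q ∘ₗ LinearMap.fst A X2.X X1.X) ?_ ?_ hC)
  · constructor
    · intro j x
      have h3 := hq.pr (j + e1) x.1
      rw [add_zero] at h3 ⊢
      exact h3
    · intro x
      have h4 : q (i x.2) = 0 := (h.2.2 _).2 ⟨x.2, rfl⟩
      change X3.d (q x.1) = q (X2.d x.1 + i x.2)
      rw [map_add, h4, add_zero, hq.d]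
  · constructor
    · intro x
      obtain ⟨z, hz⟩ := h.2.1 x
      exact ⟨(z, 0), hz⟩
    · rintro ⟨a, b⟩ hx hdx
      have hx' : q a = 0 := hx
      obtain ⟨c, hc⟩ := (h.2.2 a).1 hx'
      have hd1 : X2.d a + i b = 0 := congrArg Prod.fst hdx
      have hb : X1.d c + b = 0 := by
        apply h.1
        rw [map_add, map_zero, ← hi.d, hc, hd1]
      refine ⟨(0, c), ?_, Prod.ext ?_ ?_⟩
      · change q 0 = 0
        rw [map_zero]
      · change X2.d 0 + i c = a
        rw [map_zero, zero_add, hc]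
      · change -(X1.d c) = b
        rw [neg_eq_iff_add_eq_zero, hb]

end

variable {k : Type u} [Field k] {n : ℕ}

variable {R : Type u} [CommRing R] [Algebra R (Sn k n)] {GR : Gr R}

/-- PROOF. By induction on `j ≤ n`: `GQ 𝒢' (restr hc (FQ N j)) (2 ^ j)` (`GQ_ses`, `GQ_iso`; restriction of scalars preserves
morphisms, exact sequences and isomorphisms: `restrMap`). -/
theorem GQ_kos {𝒢' : ∀ M N : DGM GR, (M.X →ₗ[R] N.X) → Prop} (hc : Compat GR (grS k n)) (N : DGM (grS k n))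
    (hF : GQ 𝒢' (restr hc (FT N)) 1) : GQ 𝒢' (restr hc N) (2 ^ n) := by
  have key : ∀ j, j ≤ n → GQ 𝒢' (restr hc (FQ N j)) (2 ^ j) := by
    intro j
    induction j with
    | zero =>
      intro _
      obtain ⟨e, he⟩ := FQ_zero N
      exact GQ_iso (restrEquiv hc e) (IsMor.restr hc he) hF
    | succ j ih =>
      intro hj
      obtain ⟨i, q, hi, hq, hs⟩ := FQ_ses N j (by omega)
      have h1 := ih (by omega)
      have h2 := koss_third_GQ (IsMor.restr hc hi) (IsMor.restr hc hq) (IsSES.restr hc hs) h1 h1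
      have h3 : 2 ^ j + 2 ^ j = 2 ^ (j + 1) := by ring
      rwa [h3] at h2
  obtain ⟨e, he⟩ := FQ_last N
  exact GQ_iso (restrEquiv hc e) (IsMor.restr hc he) (key n le_rfl)

end MP8a
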