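import Pool.Agent.Lib_MP_8a48ad_ci.GQKos

/-! # Piece GHS: compositions of ghosts are null-homotopic, the steps -/

set_option autoImplicit false

namespace MP8a

universe u

variable {A : Type u} [CommRing A] {G : Gr A}

theorem ghn_regr {K : DGM G} {g : ℕ} (h : GhN K g) (e0 : ℤ) : GhN (K.regr e0) g := by
  intro Y γ hγ hgh e y hy
  have hy1 : IsMor K (Y 0) (e - e0) y := by
    refine ⟨fun i x => ?_, hy.d⟩
    have h1 := hy.pr (i - e0) x
    have h2 : i - e0 + e = i + (e - e0) := by ring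
    rw [h2] at h1
    rw [h1]
    change y (K.pr (i - e0 + e0) x) = y (K.pr i x)
    rw [sub_add_cancel]
  obtain ⟨H, h1, h2⟩ := h Y γ hγ hgh (e - e0) y hy1
  refine ⟨H, fun i x => ?_, h2⟩
  have h3 := h1 (i + e0) x
  have h4 : i + e0 + (e - e0 - 1) = i + (e - 1) := by ring
  rw [h4] at h3
  exact h3

/-- PROOF. The underlying module of `L.cone K f` is `K.X × L.X`, `d (x, y) = (d x + f y, - d y)`. Let `y : cone → Y 0`; `y₁ = y ∘ inl : K → Y 0` is a morphism of degree `e`, so `c₁ = cmp Y γ g ∘ y₁ = d h + h d`. Let `c = cmp Y γ g ∘ y`,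
`ψ = (c ∘ inr) - h ∘ f : L → Y g`. Since `d (c (0, t)) = c (f t, - d t) = c₁ (f t) - c (0, d t)`: `d (ψ t) = c₁ (f t) - c (0, d t) - d (h (f t)) = h (d (f t)) - c (0, d t) = - ψ (d t)`. So `ψ : L → kossNeg (Y g)` is a morphism (of degree `e - 1`). The sequence `kossNeg (Y (g + j))`, `γ (g + j)` consists of
morphisms and ghosts (`koss_neg_mor`, `koss_neg_cmp`); `hL` gives `h'` with `cmp' (ψ t) = - d (h' t) + h' (d t)` (`cmp' = cmp` of the shifted sequence). Now `cmp_add`: `cmp Y γ (g + g') ∘ y = cmp' ∘ c` and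
`c (x, t) = d h̃ (x, t) + h̃ d (x, t) + ψ t` with `h̃ (x, t) = h x`. Homotopy: `H (x, t) = cmp' (h x) - h' t`; indeed `d (- h' t) + (- h') (- d t) = - d (h' t) + h' (d t)`. -/
theorem ghn_cone {K L : DGM G} {f : L.X →ₗ[A] K.X} (hf : IsMor L K 0 f) {g g' : ℕ} (hK : GhN K g)
    (hL : GhN L g') : GhN (L.cone K f hf) (g + g') := by
  intro Y γ hγ hgh e y hy
  obtain ⟨h, h1, h2⟩ := hK Y γ hγ hgh e (y ∘ₗ LinearMap.inl A K.X L.X)
    (hy.comp0' (isMor_cone_inl L K f hf))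
  have hc : IsMor (L.cone K f hf) (Y g) e (cmp Y γ g ∘ₗ y) := (isMor_cmp Y γ hγ g).comp0 hy
  obtain ⟨c, hcdef⟩ : ∃ c : K.X × L.X →ₗ[A] (Y g).X, c = cmp Y γ g ∘ₗ y := ⟨_, rfl⟩
  rw [← hcdef] at hc
  have hc1 : ∀ x, c (x, 0) = (Y g).d (h x) + h (K.d x) := by
    intro x
    rw [← h2 x, hcdef]
    rfl
  have hcs : ∀ x t, c (x, t) = c (x, 0) + c (0, t) := by
    intro x t
    rw [← map_add]
    exact congrArg c (Prod.ext (add_zero x).symm (zero_add t).symm)
  -- the second component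
  obtain ⟨ψ, hψ⟩ : ∃ ψ : L.X →ₗ[A] (Y g).X, ∀ t, ψ t = c (0, t) - h (f t) :=
    ⟨c ∘ₗ LinearMap.inr A K.X L.X - h ∘ₗ f, fun t => rfl⟩
  have hψm : IsMor L (kossNeg (Y g)) (e - 1) ψ := by
    constructor
    · intro i t
      change (Y g).pr (i + (e - 1)) (ψ t) = ψ (L.pr i t)
      have h3 := hc.pr (i - 1) (0, t)
      have h4 : i - 1 + e = i + (e - 1) := by ring
      have h5 : (L.cone K f hf).pr (i - 1) ((0 : K.X), t) = (0, L.pr i t) := by
        refine Prod.ext (K.pr (i - 1)).map_zero ?_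
        change L.pr (i - 1 + 1) t = L.pr i t
        rw [sub_add_cancel]
      rw [h4, h5] at h3
      have h6 := hf.pr i t
      rw [add_zero] at h6
      rw [hψ, hψ, map_sub, h3, h1, h6]
    · intro t
      change -((Y g).d (ψ t)) = ψ (L.d t)
      have h3 := hc.d ((0 : K.X), t)
      have h4 : (L.cone K f hf).d ((0 : K.X), t) = (f t, -(L.d t)) := by
        rw [DGM.cone_d, map_zero, zero_add]
      have h5 : c ((0 : K.X), -(L.d t)) = -c (0, L.d t) := by
        rw [← map_neg c]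
        refine congrArg c (Prod.ext ?_ rfl)
        exact neg_zero.symm
      rw [h4, hcs (f t) (-(L.d t)), hc1, h5, hf.d] at h3
      rw [hψ, hψ, map_sub, h3]
      abel
  obtain ⟨h', h1', h2'⟩ := hL (fun j => kossNeg (Y (g + j))) (fun j => γ (g + j))
    (fun j => koss_neg_mor (hγ (g + j))) (fun j x hx => by
      have h3 : (Y (g + j)).d x = 0 := neg_eq_zero.1 hx
      obtain ⟨z, hz⟩ := hgh (g + j) x h3
      refine ⟨-z, ?_⟩
      change -((Y (g + j + 1)).d (-z)) = _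
      rw [map_neg, neg_neg, hz]) (e - 1) ψ hψm
  have hm' : IsMor (Y g) (Y (g + g')) 0 (cmp (fun j => Y (g + j)) (fun j => γ (g + j)) g') :=
    isMor_cmp (fun j => Y (g + j)) (fun j => γ (g + j)) (fun j => hγ (g + j)) g'
  obtain ⟨q, hq⟩ : ∃ q : (Y g).X →ₗ[A] (Y (g + g')).X,
    q = cmp (fun j => Y (g + j)) (fun j => γ (g + j)) g' := ⟨_, rfl⟩
  rw [← hq] at hm'
  have h2q : ∀ t, q (ψ t) = -((Y (g + g')).d (h' t)) + h' (L.d t) := by
    intro t
    rw [hq, ← koss_neg_cmp (fun j => Y (g + j)) (fun j => γ (g + j)) g']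
    exact h2' t
  refine ⟨(q ∘ₗ h) ∘ₗ LinearMap.fst A K.X L.X - h' ∘ₗ LinearMap.snd A K.X L.X, ?_, ?_⟩
  · rintro i ⟨x, t⟩
    change (Y (g + g')).pr (i + (e - 1)) (q (h x) - h' t) = q (h (K.pr i x)) - h' (L.pr (i + 1) t)
    have h3 := hm'.pr (i + (e - 1)) (h x)
    have h4 := h1' (i + 1) t
    have h5 : i + 1 + (e - 1 - 1) = i + (e - 1) := by ring
    rw [h5] at h4
    rw [add_zero, h1] at h3
    rw [map_sub, h3]
    exact congrArg (fun z => q (h (K.pr i x)) - z) h4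
  · rintro ⟨x, t⟩
    change cmp Y γ (g + g') (y (x, t)) = (Y (g + g')).d (q (h x) - h' t) +
      (q (h (K.d x + f t)) - h' (-(L.d t)))
    have h3 : c (x, t) = cmp Y γ g (y (x, t)) := by
      rw [hcdef]
      rfl
    have h4 : c (0, t) = ψ t + h (f t) := by
      rw [hψ, sub_add_cancel]
    rw [cmp_add, ← hq, ← h3, hcs, hc1, h4, map_add, map_add, map_add, h2q, ← hm'.d, map_sub,
      map_add h, map_add q, map_neg]
    abel

end MP8a
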