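import Pool.Agent.Lib_MP_8a48ad_ci.Defs
import Pool.Agent.Lib_MP_8a48ad_gt.TensG
import Pool.Agent.Lib_MP_8a48ad_gt.CIHB

/-! # Piece HB: a homogeneous basis of the cohomology over the field -/

set_option autoImplicit false

namespace MP8a

universe u

variable {k : Type u} [Field k] {n : ℕ}

attribute [local instance] kMod kTower

/-- `v` is a basis of the cohomology of `N` over `k`, with the coordinate functions `ℓ` -/
structure HBasis (N : DGM (grS k n)) {I : Type u} (w : I → ℤ) (v : I → N.X) (ℓ : I → (N.X →ₗ[k] k)) :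
    Prop where
  pr : ∀ i, N.pr (w i) (v i) = v i
  cyc : ∀ i, N.d (v i) = 0
  bd : ∀ i x, ℓ i (N.d x) = 0
  one : ∀ i, ℓ i (v i) = 1
  ne : ∀ i j, i ≠ j → ℓ i (v j) = 0
  span : ∀ x, N.d x = 0 → ∃ (c : I →₀ k) (y : N.X), x = (c.sum fun i a => a • v i) + N.d y

/-- PROOF. Let `Z = ker (dK N)` (`dK N`, `prK N i` are the `k`-linear versions of `d`, `pr i`, file `TensG`), `Bd ≤ Z` the boundaries, `V = Z ⧸ Bd` (a
`k`-vector space), `t ⊆ V` the set of classes of homogeneous cycles. `t` spans `V`: a cycle `x` is the finite sum of its components `pr i x`, which are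
cycles (`DGM.pr_d`). `exists_linearIndependent k t` gives `b ⊆ t`, linearly independent, with the same span. `I := b` (a type in `Type u`); for `i ∈ b`
choose a homogeneous cycle `v i` of degree `w i` with class `i`. Let `β` be the basis `Basis.mk` of `V` and `ℓ₀ i : Z → k` the composition of `Z → V`
with the `i`-th coordinate `β.coord i`; extend it to `ℓ i : N → k` by `LinearMap.exists_extend` (along `Z ≤ N.X`). `bd`: `d x ∈ Z` has class `0`. `span`:
`c := β.repr (class of x)`; the difference `x - ∑ c i • v i` is a cycle with class `0`, hence a boundary. -/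
theorem exists_hbasis (N : DGM (grS k n)) : ∃ (I : Type u) (w : I → ℤ) (v : I → N.X)
    (ℓ : I → (N.X →ₗ[k] k)), HBasis N w v ℓ := by
  obtain ⟨I, h, δ, h1, h2, h3, h4⟩ := exists_coh_basis N
  have hker : LinearMap.ker ((LinearMap.range (dK N)).mkQ ∘ₗ Finsupp.linearCombination k h) = ⊥ := by
    rw [LinearMap.ker_eq_bot']
    intro c hc
    have h5 : Finsupp.linearCombination k h c ∈ LinearMap.range (dK N) := by
      rw [← Submodule.ker_mkQ (LinearMap.range (dK N)), LinearMap.mem_ker]
      exact hc
    obtain ⟨w, hw⟩ := h5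
    exact h4 c w hw.symm
  obtain ⟨g, hg⟩ := LinearMap.exists_leftInverse_of_injective _ hker
  have hg' : ∀ c : I →₀ k, g ((LinearMap.range (dK N)).mkQ (Finsupp.linearCombination k h c)) = c :=
    fun c => LinearMap.congr_fun hg c
  have hv : ∀ j, g ((LinearMap.range (dK N)).mkQ (h j)) = Finsupp.single j 1 := by
    intro j
    have h6 := hg' (Finsupp.single j 1)
    rw [Finsupp.linearCombination_single, one_smul] at h6
    exact h6
  refine ⟨I, δ, h, fun i => Finsupp.lapply i ∘ₗ g ∘ₗ (LinearMap.range (dK N)).mkQ, h1, h2, ?_, ?_,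
    ?_, h3⟩
  · intro i x
    have h5 : (LinearMap.range (dK N)).mkQ (N.d x) = 0 := by
      rw [← LinearMap.mem_ker, Submodule.ker_mkQ]
      exact ⟨x, rfl⟩
    show (g ((LinearMap.range (dK N)).mkQ (N.d x))) i = 0
    rw [h5, map_zero]
    rfl
  · intro i
    show (g ((LinearMap.range (dK N)).mkQ (h i))) i = 1
    rw [hv, Finsupp.single_eq_same]
  · intro i j hij
    show (g ((LinearMap.range (dK N)).mkQ (h j))) i = 0
    rw [hv, Finsupp.single_eq_of_ne hij]

end MP8a
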