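import Pool.Agent.Lib_MP_8a48ad_ci.ExGam

/-! # Piece HM: change of rings -/

set_option autoImplicit false

namespace MP8a

universe u

variable {A C A' C' : Type u} [CommRing A] [CommRing C] [Algebra A C] [CommRing A'] [CommRing C']
  [Algebra A' C']

theorem hm_base (c : ℤ → C →+ C) (c' : ℤ → C' →+ C') {h : C →+* C'} {f : C}
    (hs : Function.Surjective h) (hk : ∀ p, h p = 0 ↔ ∃ w, p = f * w) :
    Hm (Cx.base A C c) (Cx.base A' C' c') h f h.toAddMonoidHom := by
  refine ⟨hs, hk, fun x => ?_, fun v x => ?_, fun x => rfl⟩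
  · exact map_zero h
  · exact map_zero h

/-- `π (z • y) = h z • π y` is needed; so the map is also semilinear. PROOF: `AddMonoidHom.prodMap π π`. -/
theorem hm_kos {K : Cx A C} {K' : Cx A' C'} {h : C →+* C'} {f : C} {π : K.X →+ K'.X}
    (hπ : Hm K K' h f π) (hl : ∀ (c : C) (x : K.X), π (c • x) = h c • π x) (i : ℕ) (z : C) (e : ℤ) :
    ∃ π' : (K.kos i z e).X →+ (K'.kos i (h z) e).X, Hm (K.kos i z e) (K'.kos i (h z) e) h f π' ∧
      ∀ (c : C) (x : (K.kos i z e).X), π' (c • x) = h c • π' x := by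
  refine ⟨AddMonoidHom.prodMap π π, ⟨?_, ?_, ?_, ?_, ?_⟩, ?_⟩
  · rintro ⟨a, b⟩
    obtain ⟨x, hx⟩ := hπ.surj a
    obtain ⟨y, hy⟩ := hπ.surj b
    exact ⟨(x, y), Prod.ext hx hy⟩
  · rintro ⟨x, y⟩
    constructor
    · intro h0
      obtain ⟨w, hw⟩ := (hπ.ker x).1 (congrArg Prod.fst h0)
      obtain ⟨w', hw'⟩ := (hπ.ker y).1 (congrArg Prod.snd h0)
      exact ⟨(w, w'), Prod.ext hw hw'⟩
    · rintro ⟨w, hw⟩
      exact Prod.ext ((hπ.ker x).2 ⟨w.1, congrArg Prod.fst hw⟩)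
        ((hπ.ker y).2 ⟨w.2, congrArg Prod.snd hw⟩)
  · rintro ⟨x, y⟩
    refine Prod.ext ?_ ?_
    · change π (K.D x + z • y) = K'.D (π x) + h z • π y
      rw [map_add, hπ.D, hl]
    · change π (-(K.D y)) = -(K'.D (π y))
      rw [map_neg, hπ.D]
  · rintro v ⟨x, y⟩
    refine Prod.ext ?_ ?_
    · change π (K.E v x) = K'.E (h ∘ v) (π x)
      exact hπ.E v x
    · change π (v i • x - K.E v y) = h (v i) • π x - K'.E (h ∘ v) (π y)
      rw [map_sub, hl, hπ.E]
  · rintro ⟨x, y⟩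
    exact hπ.q x
  · rintro c ⟨x, y⟩
    exact Prod.ext (hl c x) (hl c y)

/-- PROOF. `Finsupp.mapRange.addMonoidHom π`. `surj`: `Finsupp.mapRange_surjective` or choose preimages (`0` of `0`). `ker`: choose `W : K.X → K.X` with `W x = w`, `x = f w` when `π x = 0`, `W 0 = 0`; `Finsupp.mapRange W`. -/
theorem hm_gam {K : Cx A C} {K' : Cx A' C'} {h : C →+* C'} {f : C} {π : K.X →+ K'.X}
    (hπ : Hm K K' h f π) (hl : ∀ (c : C) (x : K.X), π (c • x) = h c • π x) (g : ℕ → C) (s : ℤ) :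
    ∃ π' : (K.gam g s).X →+ (K'.gam (h ∘ g) s).X, Hm (K.gam g s) (K'.gam (h ∘ g) s) h f π' ∧
      ∀ (c : C) (x : (K.gam g s).X), π' (c • x) = h c • π' x := by
  classical
  refine ⟨Finsupp.mapRange.addMonoidHom π, ⟨?_, ?_, ?_, ?_, ?_⟩, ?_⟩
  · intro b
    choose W hW using hπ.surj
    refine ⟨Finsupp.onFinset b.support (fun a => if b a = 0 then 0 else W (b a)) ?_, ?_⟩
    · intro a ha
      rw [Finsupp.mem_support_iff]
      intro h0
      exact ha (if_pos h0)
    · refine Finsupp.ext fun a => ?_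
      change π (if b a = 0 then 0 else W (b a)) = b a
      split
      · next h0 => rw [map_zero, h0]
      · exact hW _
  · intro b
    constructor
    · intro h0
      have h1 : ∀ a, π (b a) = 0 := fun a => DFunLike.congr_fun h0 a
      choose W hW using fun a => (hπ.ker (b a)).1 (h1 a)
      refine ⟨Finsupp.onFinset b.support (fun a => if b a = 0 then 0 else W a) ?_, ?_⟩
      · intro a ha
        rw [Finsupp.mem_support_iff]
        intro h0
        exact ha (if_pos h0)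
      · refine Finsupp.ext fun a => ?_
        change b a = f • (if b a = 0 then 0 else W a)
        split
        · next h0 => rw [smul_zero, h0]
        · exact hW a
    · rintro ⟨w, hw⟩
      refine Finsupp.ext fun a => ?_
      exact (hπ.ker (b a)).2 ⟨w a, DFunLike.congr_fun hw a⟩
  · intro b
    refine Finsupp.ext fun a => ?_
    change π (K.D (b a) + K.E g (b (a + 1))) = K'.D (π (b a)) + K'.E (h ∘ g) (π (b (a + 1)))
    rw [map_add, hπ.D, hπ.E]
  · intro v b
    refine Finsupp.ext fun a => ?_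
    exact hπ.E v (b a)
  · intro b
    exact hπ.q (b 0)
  · intro c b
    refine Finsupp.ext fun a => ?_
    exact hl c (b a)

theorem hm_Kx (c : ℤ → C →+ C) (c' : ℤ → C' →+ C') {h : C →+* C'} {f : C}
    (hs : Function.Surjective h) (hk : ∀ p, h p = 0 ↔ ∃ w, p = f * w) (z : ℕ → C) (e : ℕ → ℤ)
    (m : ℕ) : ∃ π : (Kx A c z e m).X →+ (Kx A' c' (h ∘ z) e m).X,
      Hm (Kx A c z e m) (Kx A' c' (h ∘ z) e m) h f π ∧
      ∀ (a : C) (x : (Kx A c z e m).X), π (a • x) = h a • π x := by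
  induction m with
  | zero => exact ⟨h.toAddMonoidHom, hm_base c c' hs hk, fun a x => map_mul h a x⟩
  | succ m ih =>
    obtain ⟨π, h1, h2⟩ := ih
    exact hm_kos h1 h2 m (z m) (e m)

theorem hm_Tx {K : Cx A C} {K' : Cx A' C'} {h : C →+* C'} {f : C} {π : K.X →+ K'.X}
    (hπ : Hm K K' h f π) (hl : ∀ (c : C) (x : K.X), π (c • x) = h c • π x) (g : ℕ → ℕ → C)
    (s : ℕ → ℤ) (j : ℕ) : ∃ π' : (Tx K g s j).X →+ (Tx K' (fun l => h ∘ g l) s j).X,
      Hm (Tx K g s j) (Tx K' (fun l => h ∘ g l) s j) h f π' ∧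
      ∀ (a : C) (x : (Tx K g s j).X), π' (a • x) = h a • π' x := by
  induction j with
  | zero => exact ⟨π, hπ, hl⟩
  | succ j ih =>
    obtain ⟨π', h1, h2⟩ := ih
    exact hm_gam h1 h2 (g j) (s j)

/-- multiplication by `f` is injective on the complexes if it is so on `C` -/
theorem nzd_Kx (c : ℤ → C →+ C) {f : C} (hf : ∀ p : C, f * p = 0 → p = 0) (z : ℕ → C) (e : ℕ → ℤ)
    (m : ℕ) : ∀ x : (Kx A c z e m).X, f • x = 0 → x = 0 := by
  induction m with
  | zero => exact hf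
  | succ m ih =>
    intro x hx
    exact Prod.ext (ih x.1 (congrArg Prod.fst hx)) (ih x.2 (congrArg Prod.snd hx))

theorem nzd_gam {K : Cx A C} {f : C} (hf : ∀ x : K.X, f • x = 0 → x = 0) (g : ℕ → C) (s : ℤ)
    (x : (K.gam g s).X) (hx : f • x = 0) : x = 0 :=
  Finsupp.ext fun a => hf (x a) (DFunLike.congr_fun hx a)

theorem nzd_Tx {K : Cx A C} {f : C} (hf : ∀ x : K.X, f • x = 0 → x = 0) (g : ℕ → ℕ → C)
    (s : ℕ → ℤ) (j : ℕ) : ∀ x : (Tx K g s j).X, f • x = 0 → x = 0 := by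
  induction j with
  | zero => exact hf
  | succ j ih => exact nzd_gam ih (g j) (s j)

end MP8a
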