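import Pool.Agent.Lib_MP_8a48ad_ci.GQKos

/-! # Piece LPC: the lifting property, cones -/

set_option autoImplicit false

namespace MP8a

universe u

variable {A : Type u} [CommRing A] {G : Gr A}

/-- regrading (only the degrees change) -/
theorem lpp_regr {K : DGM G} (h : LPp K) (e0 : ℤ) : LPp (K.regr e0) := by
  intro X' X e' p hp hq e φ ψ hφ hψ hd hpψ
  obtain ⟨φ', h1, h2, h3⟩ := h X' X e' p hp hq (e - e0) φ ψ
    (fun i x => by
      have h1 := hφ (i - e0) x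
      change X.pr (i - e0 + (e + e')) (φ x) = φ (K.pr (i - e0 + e0) x) at h1
      have h2 : i - e0 + (e + e') = i + (e - e0 + e') := by ring
      rw [h2, sub_add_cancel] at h1
      exact h1)
    (fun i x => by
      have h1 := hψ (i - e0) x
      change X'.pr (i - e0 + (e + 1)) (ψ x) = ψ (K.pr (i - e0 + e0) x) at h1
      have h2 : i - e0 + (e + 1) = i + (e - e0 + 1) := by ring
      rw [h2, sub_add_cancel] at h1
      exact h1) hd hpψ
  refine ⟨φ', fun i x => ?_, h2, h3⟩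
  have h4 := h1 (i + e0) x
  have h5 : i + e0 + (e - e0) = i + e := by ring
  rw [h5] at h4
  exact h4

theorem lpp_neg_SQ {X' X : DGM G} {p : X'.X →ₗ[A] X.X} (hq : SQ X' X p) :
    SQ (kossNeg X') (kossNeg X) p := by
  refine ⟨hq.1, fun x hx hdx => ?_⟩
  obtain ⟨z, hz, hdz⟩ := hq.2 x hx (neg_eq_zero.1 hdx)
  refine ⟨-z, ?_, ?_⟩
  · rw [map_neg, hz, neg_zero]
  · change -(X'.d (-z)) = x
    rw [map_neg, neg_neg, hdz]

/-- PROOF. The underlying module of `L.cone K f` is `K.X × L.X`, `d (x, y) = (d x + f y, - d y)`. Let `φ₁ = φ ∘ inl`, `ψ₁ = ψ ∘ inl` (degrees `e + e'`, `e + 1`); the conditions restrict (`d (x, 0) = (d x, 0)`), so `hK` gives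
`φ'₁ : K → X'`, `p φ'₁ = φ₁`, `d φ'₁ - φ'₁ d = ψ₁`. Let `φ₂ = φ ∘ inr`, `ψ₂ = ψ ∘ inr`; we need `φ'₂ : L → X'` with `p φ'₂ = φ₂` and `d φ'₂ y + φ'₂ (d y) = ψ₂ y + φ'₁ (f y)`. Apply `hL` to `kossNeg X' → kossNeg X` (differentials
`-d`; `koss_neg_mor`; `SQ` holds again, with `-y`), `φ₂` and `ψ̃ = -(ψ₂ + φ'₁ ∘ f)`: `(-d) (ψ̃ y) = - ψ̃ (d y)` because `d ψ₂ y = - ψ (f y, - d y) = - ψ₁ (f y) + ψ₂ (d y)` and `d φ'₁ (f y) = φ'₁ (f (d y)) + ψ₁ (f y)`; `p ψ̃ = (-d) φ₂ - φ₂ d` because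
`p ψ₂ y = d φ₂ y - φ (f y, - d y) = d φ₂ y - φ₁ (f y) + φ₂ (d y)`. The degrees: `y ∈ L` of degree `i + 1` gives `(0, y)` of degree `i`: so `φ₂`, `ψ₂` have degrees `e + e' - 1`, `e` on `L`. `φ' (x, y) = φ'₁ x + φ'₂ y`. -/
theorem lpp_cone {K L : DGM G} {f : L.X →ₗ[A] K.X} (hf : IsMor L K 0 f) (hK : LPp K) (hL : LPp L) :
    LPp (L.cone K f hf) := by
  intro X' X e' p hp hq e φ ψ hφ hψ hd hpψ
  -- restatement of the hypotheses on pairs
  have hφ' : ∀ i (x : K.X) (y : L.X), X.pr (i + (e + e')) (φ (x, y)) = φ (K.pr i x, L.pr (i + 1) y) :=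
    fun i x y => hφ i (x, y)
  have hψ' : ∀ i (x : K.X) (y : L.X), X'.pr (i + (e + 1)) (ψ (x, y)) = ψ (K.pr i x, L.pr (i + 1) y) :=
    fun i x y => hψ i (x, y)
  have hd' : ∀ (x : K.X) (y : L.X), X'.d (ψ (x, y)) = -ψ (K.d x + f y, -(L.d y)) :=
    fun x y => hd (x, y)
  have hpψ' : ∀ (x : K.X) (y : L.X), p (ψ (x, y)) = X.d (φ (x, y)) - φ (K.d x + f y, -(L.d y)) :=
    fun x y => hpψ (x, y)
  have hsφ : ∀ (x : K.X) (y : L.X), φ (x, y) = φ (x, 0) + φ (0, y) := by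
    intro x y
    rw [← map_add, Prod.mk_add_mk, add_zero, zero_add]
  have hsψ : ∀ (x : K.X) (y : L.X), ψ (x, y) = ψ (x, 0) + ψ (0, y) := by
    intro x y
    rw [← map_add, Prod.mk_add_mk, add_zero, zero_add]
  have hnφ : ∀ y : L.X, φ (0, -y) = -φ (0, y) := by
    intro y
    rw [← map_neg, Prod.neg_mk, neg_zero]
  have hnψ : ∀ y : L.X, ψ (0, -y) = -ψ (0, y) := by
    intro y
    rw [← map_neg, Prod.neg_mk, neg_zero]
  -- first component
  obtain ⟨φ₁, h1, h2, h3⟩ := hK X' X e' p hp hq e (φ ∘ₗ LinearMap.inl A K.X L.X)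
    (ψ ∘ₗ LinearMap.inl A K.X L.X)
    (fun i x => by
      change X.pr (i + (e + e')) (φ (x, 0)) = φ (K.pr i x, 0)
      rw [hφ', map_zero])
    (fun i x => by
      change X'.pr (i + (e + 1)) (ψ (x, 0)) = ψ (K.pr i x, 0)
      rw [hψ', map_zero])
    (fun x => by
      change X'.d (ψ (x, 0)) = -ψ (K.d x, 0)
      rw [hd', map_zero, map_zero, add_zero, neg_zero])
    (fun x => by
      change p (ψ (x, 0)) = X.d (φ (x, 0)) - φ (K.d x, 0)
      rw [hpψ', map_zero, map_zero, add_zero, neg_zero])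
  have h2' : ∀ x, p (φ₁ x) = φ (x, 0) := h2
  have h3' : ∀ x, X'.d (φ₁ x) - φ₁ (K.d x) = ψ (x, 0) := h3
  have h3'' : ∀ x, X'.d (φ₁ x) = φ₁ (K.d x) + ψ (x, 0) := fun x => by rw [← h3' x]; abel
  -- second component
  obtain ⟨φ₂, h4, h5, h6⟩ := hL (kossNeg X') (kossNeg X) e' p (koss_neg_mor hp) (lpp_neg_SQ hq)
    (e - 1) (φ ∘ₗ LinearMap.inr A K.X L.X) (-(ψ ∘ₗ LinearMap.inr A K.X L.X + φ₁ ∘ₗ f))
    (fun i y => by
      change X.pr (i + (e - 1 + e')) (φ (0, y)) = φ (0, L.pr i y)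
      have h7 := hφ' (i - 1) 0 y
      have h8 : i - 1 + (e + e') = i + (e - 1 + e') := by ring
      rw [h8, sub_add_cancel, map_zero] at h7
      exact h7)
    (fun i y => by
      change X'.pr (i + (e - 1 + 1)) (-(ψ (0, y) + φ₁ (f y))) = -(ψ (0, L.pr i y) + φ₁ (f (L.pr i y)))
      have h7 := hψ' (i - 1) 0 y
      have h8 : i - 1 + (e + 1) = i + e := by ring
      rw [h8, sub_add_cancel, map_zero] at h7
      have h9 := h1 i (f y)
      have h10 := hf.pr i y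
      rw [add_zero] at h10
      rw [h10] at h9
      have h11 : e - 1 + 1 = e := by ring
      rw [h11, map_neg, map_add, h7, h9])
    (fun y => by
      change -(X'.d (-(ψ (0, y) + φ₁ (f y)))) = - -(ψ (0, L.d y) + φ₁ (f (L.d y)))
      rw [map_neg, neg_neg, neg_neg, map_add, hd', h3'', hf.d, map_zero, zero_add, hsψ, hnψ]
      abel)
    (fun y => by
      change p (-(ψ (0, y) + φ₁ (f y))) = -(X.d (φ (0, y))) - φ (0, L.d y)
      rw [map_neg, map_add, hpψ', h2', map_zero, zero_add, hsφ (f y), hnφ]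
      abel)
  have h4' : ∀ i y, X'.pr (i + (e - 1)) (φ₂ y) = φ₂ (L.pr i y) := h4
  have h5' : ∀ y, p (φ₂ y) = φ (0, y) := h5
  have h6' : ∀ y, -(X'.d (φ₂ y)) - φ₂ (L.d y) = -(ψ (0, y) + φ₁ (f y)) := h6
  refine ⟨φ₁.coprod φ₂, fun i x => ?_, fun x => ?_, fun x => ?_⟩
  · change X'.pr (i + e) (φ₁ x.1 + φ₂ x.2) = φ₁ (K.pr i x.1) + φ₂ (L.pr (i + 1) x.2)
    have h7 := h4' (i + 1) x.2
    have h8 : i + 1 + (e - 1) = i + e := by ring
    rw [h8] at h7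
    rw [map_add, h1, h7]
  · change p (φ₁ x.1 + φ₂ x.2) = φ x
    rw [map_add, h2', h5', ← hsφ]
  · change X'.d (φ₁ x.1 + φ₂ x.2) - (φ₁ (K.d x.1 + f x.2) + φ₂ (-(L.d x.2))) = ψ x
    have h7 : ψ x = ψ (x.1, 0) + ψ (0, x.2) := hsψ x.1 x.2
    have h8 : X'.d (φ₂ x.2) = ψ (0, x.2) + φ₁ (f x.2) - φ₂ (L.d x.2) := by
      have h9 := h6' x.2
      have h10 : X'.d (φ₂ x.2) = -(-(X'.d (φ₂ x.2)) - φ₂ (L.d x.2)) - φ₂ (L.d x.2) := by abel
      rw [h10, h9]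
      abel
    rw [map_add, map_add, map_neg, h3'', h8, h7]
    abel

end MP8a
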