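import Pool.Agent.Lib_MP_8a48ad_ci.GQKos

/-! # Piece LPG: the lifting property, divided powers -/

set_option autoImplicit false

namespace MP8a

universe u

variable {A : Type u} [CommRing A] {G : Gr A}

private theorem lg_pr_single {X : Type u} [AddCommGroup X] (pr : ℤ → X →+ X) (s i : ℤ) (a : ℕ)
    (x : X) : gamPr pr s i (Finsupp.single a x) = Finsupp.single a (pr (i - a * s) x) := by
  ext b
  rw [gamPr_apply]
  by_cases h : a = b
  · subst h
    rw [Finsupp.single_eq_same, Finsupp.single_eq_same]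
  · rw [Finsupp.single_eq_of_ne' h, Finsupp.single_eq_of_ne' h, map_zero]

private theorem lg_L_zero {X : Type u} [AddCommGroup X] [Module A X] (D σ : X →ₗ[A] X) (x : X) :
    gamL D σ (Finsupp.single 0 x) = Finsupp.single 0 (D x) := by
  ext b
  rw [gamL_apply, Finsupp.single_eq_of_ne' (Nat.succ_ne_zero b).symm, map_zero, add_zero]
  by_cases h : 0 = b
  · subst h
    rw [Finsupp.single_eq_same, Finsupp.single_eq_same]
  · rw [Finsupp.single_eq_of_ne' h, Finsupp.single_eq_of_ne' h, map_zero]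

private theorem lg_L_succ {X : Type u} [AddCommGroup X] [Module A X] (D σ : X →ₗ[A] X) (a : ℕ)
    (x : X) : gamL D σ (Finsupp.single (a + 1) x) =
      Finsupp.single (a + 1) (D x) + Finsupp.single a (σ x) := by
  ext b
  rw [gamL_apply, Finsupp.add_apply]
  congr 1
  · by_cases h : a + 1 = b
    · subst h
      rw [Finsupp.single_eq_same, Finsupp.single_eq_same]
    · rw [Finsupp.single_eq_of_ne' h, Finsupp.single_eq_of_ne' h, map_zero]
  · by_cases h : a = b
    · subst h
      rw [Finsupp.single_eq_same, Finsupp.single_eq_same]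
    · rw [Finsupp.single_eq_of_ne' h, Finsupp.single_eq_of_ne' (fun h' => h (Nat.succ.inj h')),
        map_zero]

/-- PROOF. Let `φ_a = φ ∘ (single a)`, `ψ_a = ψ ∘ (single a) : K → X'`; `D (single a x) = single a (d x) + single (a-1) (σ x)` for `a ≥ 1`, `D (single 0 x) = single 0 (d x)`. Construct by recursion `u_a : K → X'` (homogeneous of degree `e + a s`) with `p u_a = φ_a`,
`d u_0 - u_0 d = ψ_0`, `d u_{a+1} - u_{a+1} d = ψ_{a+1} + u_a σ`: apply `hK` with `φ_{a+1}` and `ψ̃ = ψ_{a+1} + u_a ∘ σ`. Conditions: `d (ψ_{a+1} x) = - ψ_{a+1} (d x) - ψ_a (σ x)` and `d (u_a (σ x)) = u_a (d (σ x)) + ψ_a (σ x) + w (σ (σ x))`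
`= - u_a (σ (d x)) + ψ_a (σ x)`, where `d u_a - u_a d = ψ_a + w σ`, `w = u_{a-1}` or `0`; `p (ψ̃ x) = d (φ_{a+1} x) - φ_{a+1} (d x)` similarly. For the recursion use the property `P a u := u homogeneous of degree e + a s ∧ p u = φ_a ∧ ∃ w, ∀ x, d (u x) - u (d x) = ψ_a x + w (σ x)`;
the step gives from `u` with `P a u` a `u'` with `P (a + 1) u'` and `d u' - u' d = ψ_{a+1} + u σ` (choose, `Nat.rec` on the subtype). Finally `φ' = Finsupp.lsum A u`; check everything on `single a x` (`Finsupp.induction_linear`). -/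
theorem lpp_gam {K : DGM G} {σ : K.X →ₗ[A] K.X} {s : ℤ} (h : IsAnti K (s + 1) σ) (hK : LPp K) :
    LPp (gamD K σ s h) := by
  intro X' X e' p hp hq e φ ψ hφ hψ hdψ hpψ
  change (ℕ →₀ K.X) →ₗ[A] X.X at φ
  change (ℕ →₀ K.X) →ₗ[A] X'.X at ψ
  have hφs : ∀ (a : ℕ) (i : ℤ) (x : K.X), X.pr (i + (e + a * s + e')) (φ (Finsupp.single a x)) =
      φ (Finsupp.single a (K.pr i x)) := by
    intro a i x
    have h1 := hφ (i + a * s) (Finsupp.single a x)
    have h2 : i + a * s + (e + e') = i + (e + a * s + e') := by ring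
    rw [h2] at h1
    rw [h1]
    change φ (gamPr K.pr s (i + a * s) (Finsupp.single a x)) = _
    rw [lg_pr_single, add_sub_cancel_right]
  have hψs : ∀ (a : ℕ) (i : ℤ) (x : K.X), X'.pr (i + (e + a * s + 1)) (ψ (Finsupp.single a x)) =
      ψ (Finsupp.single a (K.pr i x)) := by
    intro a i x
    have h1 := hψ (i + a * s) (Finsupp.single a x)
    have h2 : i + a * s + (e + 1) = i + (e + a * s + 1) := by ring
    rw [h2] at h1
    rw [h1]
    change ψ (gamPr K.pr s (i + a * s) (Finsupp.single a x)) = _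
    rw [lg_pr_single, add_sub_cancel_right]
  have hd : ∀ b : ℕ →₀ K.X, X'.d (ψ b) = -ψ (gamL K.d σ b) := hdψ
  have hpp : ∀ b : ℕ →₀ K.X, p (ψ b) = X.d (φ b) - φ (gamL K.d σ b) := hpψ
  let P : ℕ → (K.X →ₗ[A] X'.X) → Prop := fun a v =>
    (∀ i x, X'.pr (i + (e + a * s)) (v x) = v (K.pr i x)) ∧
      (∀ x, p (v x) = φ (Finsupp.single a x)) ∧
      ∃ w : K.X →ₗ[A] X'.X, ∀ x, X'.d (v x) - v (K.d x) = ψ (Finsupp.single a x) + w (σ x)
  have base : ∃ v, P 0 v ∧ ∀ x, X'.d (v x) - v (K.d x) = ψ (Finsupp.single 0 x) := by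
    obtain ⟨v, h1, h2, h3⟩ := hK X' X e' p hp hq (e + (0 : ℕ) * s) (φ ∘ₗ Finsupp.lsingle 0)
      (ψ ∘ₗ Finsupp.lsingle 0) (hφs 0) (hψs 0)
      (fun x => by
        change X'.d (ψ (Finsupp.single 0 x)) = -ψ (Finsupp.single 0 (K.d x))
        rw [hd, lg_L_zero])
      (fun x => by
        change p (ψ (Finsupp.single 0 x)) =
          X.d (φ (Finsupp.single 0 x)) - φ (Finsupp.single 0 (K.d x))
        rw [hpp, lg_L_zero])
    refine ⟨v, ⟨h1, h2, 0, fun x => ?_⟩, h3⟩
    rw [h3, LinearMap.zero_apply, add_zero]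
    rfl
  have step : ∀ (a : ℕ) (v : {v // P a v}), ∃ v' : {v' // P (a + 1) v'},
      ∀ x, X'.d (v'.1 x) - v'.1 (K.d x) = ψ (Finsupp.single (a + 1) x) + v.1 (σ x) := by
    rintro a ⟨v, hv1, hv2, w, hv3⟩
    obtain ⟨v', h1, h2, h3⟩ := hK X' X e' p hp hq (e + (a + 1 : ℕ) * s)
      (φ ∘ₗ Finsupp.lsingle (a + 1)) (ψ ∘ₗ Finsupp.lsingle (a + 1) + v ∘ₗ σ) (hφs (a + 1))
      (fun i x => by
        change X'.pr (i + (e + (a + 1 : ℕ) * s + 1)) (ψ (Finsupp.single (a + 1) x) + v (σ x)) =
          ψ (Finsupp.single (a + 1) (K.pr i x)) + v (σ (K.pr i x))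
        rw [map_add, hψs (a + 1) i x, ← h.pr i x, ← hv1 (i + (s + 1)) (σ x)]
        congr 3
        push_cast
        ring)
      (fun x => by
        change X'.d (ψ (Finsupp.single (a + 1) x) + v (σ x)) =
          -(ψ (Finsupp.single (a + 1) (K.d x)) + v (σ (K.d x)))
        have e1 := hv3 (σ x)
        rw [h.sq, map_zero, add_zero] at e1
        have e2 : X'.d (v (σ x)) = v (K.d (σ x)) + ψ (Finsupp.single a (σ x)) := by
          rw [← e1]
          abel
        have e3 : K.d (σ x) = -σ (K.d x) := eq_neg_of_add_eq_zero_left (h.d x)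
        rw [map_add, hd, lg_L_succ, e2, e3, map_neg, map_add]
        abel)
      (fun x => by
        change p (ψ (Finsupp.single (a + 1) x) + v (σ x)) =
          X.d (φ (Finsupp.single (a + 1) x)) - φ (Finsupp.single (a + 1) (K.d x))
        rw [map_add, hpp, lg_L_succ, hv2, map_add]
        abel)
    exact ⟨⟨v', h1, h2, v, h3⟩, h3⟩
  obtain ⟨v0, hv0, hv0'⟩ := base
  choose F hF using step
  let q : ∀ a, {v // P a v} := fun a => Nat.rec ⟨v0, hv0⟩ (fun a v => F a v) a
  have hq0 : q 0 = ⟨v0, hv0⟩ := rfl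
  have hqs : ∀ a, q (a + 1) = F a (q a) := fun a => rfl
  let Φ : (ℕ →₀ K.X) →ₗ[A] X'.X := Finsupp.lsum A (fun a => (q a).1)
  have hΦ : ∀ a x, Φ (Finsupp.single a x) = (q a).1 x := fun a x =>
    Finsupp.lsum_single A (fun a => (q a).1) a x
  refine ⟨Φ, fun i b => ?_, fun b => ?_, fun b => ?_⟩
  · change X'.pr (i + e) (Φ b) = Φ (gamPr K.pr s i b)
    induction b using Finsupp.induction_linear with
    | zero => rw [map_zero, map_zero, map_zero, map_zero]
    | add f g hf hg => rw [map_add, map_add, map_add, map_add, hf, hg]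
    | single a x =>
      rw [lg_pr_single, hΦ, hΦ, ← (q a).2.1 (i - a * s) x]
      congr 2
      ring
  · change p (Φ b) = φ b
    induction b using Finsupp.induction_linear with
    | zero => rw [map_zero, map_zero, map_zero]
    | add f g hf hg => rw [map_add, map_add, map_add, hf, hg]
    | single a x => rw [hΦ, (q a).2.2.1 x]
  · change X'.d (Φ b) - Φ (gamL K.d σ b) = ψ b
    induction b using Finsupp.induction_linear with
    | zero => rw [map_zero, map_zero, map_zero, map_zero, map_zero, sub_zero]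
    | add f g hf hg =>
      rw [map_add, map_add, map_add, map_add, map_add, ← hf, ← hg]
      abel
    | single a x =>
      cases a with
      | zero =>
        rw [lg_L_zero, hΦ, hΦ]
        exact hv0' x
      | succ a =>
        rw [lg_L_succ, map_add, hΦ, hΦ, hΦ]
        have h1 := hF a (q a) x
        rw [← hqs] at h1
        rw [← sub_sub, h1]
        abel

end MP8a
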