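import Pool.Agent.Lib_MP_8a48ad_ci.CovB
import Pool.Agent.Lib_MP_8a48ad_ci.GQBase
import Pool.Agent.Lib_MP_8a48ad_gt.LemA2

/-! # The abstract theorem (assembled): a good resolution of `S` whose morphisms are finitely generated suffices -/

set_option autoImplicit false

namespace MP8a

universe u

section

variable {A : Type u} [CommRing A] {G : Gr A}

/-- the sequence of objects -/
noncomputable def towbSeq (step : {N : DGM G // FG N} → {N : DGM G // FG N})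
    (M : {N : DGM G // FG N}) : ℕ → {N : DGM G // FG N}
  | 0 => M
  | j + 1 => step (towbSeq step M j)

/-- A sequence of covers. -/
theorem exists_towerB [IsNoetherianRing A] {B : DGM G} (hB : FG B) (hFG : FGB B) (M : DGM G)
    (hM : FG M) :
    ∃ (Y : ℕ → DGM G) (γ : ∀ j, (Y j).X →ₗ[A] (Y (j + 1)).X) (h0 : Y 0 = M),
      (∀ j, IsMor (Y j) (Y (j + 1)) 0 (γ j)) ∧ (∀ j, BGh B (Y j) (Y (j + 1)) (γ j)) ∧
      ∀ g (T : DGM G → Prop), IsThick T → T B →
        ∃ (L : DGM G) (κ : (Y g).X →ₗ[A] L.X), IsMor (Y g) L 0 κ ∧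
          IsSES (Y 0) (Y g) L (cmp Y γ g) κ ∧ T L := by
  choose st L ι κ h using fun N : {N : DGM G // FG N} => exists_coverB hB hFG N.1 N.2
  let step : {N : DGM G // FG N} → {N : DGM G // FG N} := fun N =>
    ⟨st N, (h N).2.2.2.2.1⟩
  let Z : ℕ → {N : DGM G // FG N} := towbSeq step ⟨M, hM⟩
  let Y : ℕ → DGM G := fun j => (Z j).1
  let γ : ∀ j, (Y j).X →ₗ[A] (Y (j + 1)).X := fun j => ι (Z j)
  have hγ : ∀ j, IsMor (Y j) (Y (j + 1)) 0 (γ j) := fun j => (h (Z j)).1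
  have hc : ∀ g, IsMor (Y 0) (Y g) 0 (cmp Y γ g) := by
    intro g
    induction g with
    | zero => exact isMor_id _
    | succ g ih => exact (hγ g).comp0 ih
  refine ⟨Y, γ, rfl, hγ, fun j => (h (Z j)).2.2.2.1, ?_⟩
  intro g T hT hreg
  induction g with
  | zero =>
    refine ⟨zeroM G, 0, isMor_zero _ _ _, ⟨fun x y hxy => hxy, ?_, ?_⟩, hT.zero hreg⟩
    · intro y
      exact ⟨0, Subsingleton.elim _ _⟩
    · intro x
      exact ⟨fun _ => ⟨x, rfl⟩, fun _ => rfl⟩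
  | succ g ih =>
    obtain ⟨L1, κ1, hκ1, hs1, hT1⟩ := ih
    exact hT.comp_ses (hc g) (hγ g) hκ1 (h (Z g)).2.1 hs1 (h (Z g)).2.2.1 hT1
      ((h (Z g)).2.2.2.2.2 T hT hreg)

/-- the cone of an isomorphism of degree `0` -/
theorem acy_cone_one (M : DGM G) (hf : IsMor M (M.sh 0) 0 ((1 : A) • (LinearMap.id : M.X →ₗ[A] M.X))) :
    Acy (M.cone (M.sh 0) ((1 : A) • (LinearMap.id : M.X →ₗ[A] M.X)) hf) := by
  rintro ⟨x, y⟩ hx
  have h1 : (M.sh 0).d x + (1 : A) • y = 0 := congrArg Prod.fst hx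
  rw [DGM.sh_d_even M (by decide), one_smul] at h1
  refine ⟨(0, x), Prod.ext ?_ ?_⟩
  · change (M.sh 0).d 0 + (1 : A) • x = x
    rw [map_zero, zero_add, one_smul]
  · change -(M.d x) = y
    rw [neg_eq_iff_add_eq_zero]
    exact h1

end

variable {k : Type u} [Field k] {n : ℕ} {R : Type u} [CommRing R] [Algebra k R]
  [Algebra R (Sn k n)] {GR : Gr R}

/-- every DG `R`-module is killed by `2 ^ n` maps which are zero on `B` -/
theorem GQ_all (hS : Setup k n GR) {B : DGM GR} (hLP : LP B) {π : B.X →ₗ[R] (SR hS.compat).X}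
    (hπ : IsMor B (SR hS.compat) 0 π) (hq : SQ B (SR hS.compat) π) (M : DGM GR) :
    GQ (BGh B) M (2 ^ n) := by
  obtain ⟨i, r, hi, hr, h⟩ := coind_retract hS M
  exact GQ_retract hi hr h (GQ_kos hS.compat (coind hS M) (GQ_base hS hLP hπ hq (coind hS M)))

/-- THE ABSTRACT THEOREM. -/
theorem thick_of_fgb (hS : Setup k n GR) {B : DGM GR} (hLP : LP B)
    {π : B.X →ₗ[R] (SR hS.compat).X} (hπ : IsMor B (SR hS.compat) 0 π)
    (hq : SQ B (SR hS.compat) π) (hFG : FGB B) {T : DGM GR → Prop} (hT : IsThick T)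
    (h : T (SR hS.compat)) {M : DGM GR} (hM : FG M) : T M := by
  have := hS.noeth
  have := hS.fin
  have hqi : IsQis B (SR hS.compat) π := SQ.isQis hπ hq
  have hTB : T B := (hT.qis _ _ π hπ hqi).2 h
  have hB : FG B := (FG_qis hπ hqi).2 (FG_of_finite (M := SR hS.compat) hS.fin rfl)
  obtain ⟨Y, γ, h0, hγ, hgh, hL⟩ := exists_towerB hB hFG M hM
  subst h0
  obtain ⟨L, κ, hκ, hses, hTL⟩ := hL (2 ^ n) T hT hTB
  have h1 := GQ_all hS hLP hπ hq (Y 0) (Y 0) 0 LinearMap.id (isMor_id _) ⟨fun x => ⟨x, rfl⟩,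
    fun x hx hd => ⟨0, map_zero _, by
      have hx' : x = 0 := hx
      rw [hx', map_zero]⟩⟩ Y γ hγ hgh 0 LinearMap.id (isMor_id _)
  rw [LinearMap.comp_id] at h1
  have h2 : NZ (Y 0) (Y (2 ^ n)) 0 ((1 : R) • cmp Y γ (2 ^ n)) := by
    rw [one_smul]
    exact h1
  exact retract_arg hT (isMor_cmp Y γ hγ _) hκ hses hTL GR.one (by decide) h2
    (hT.acy h (acy_cone_one _ _))

end MP8a
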