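import Pool.Agent.Lib_MP_8a48ad_ci.OkKos

/-! # Piece OKG: the identities, divided power step -/

set_option autoImplicit false

namespace MP8a

universe u

variable {A C : Type u} [CommRing A] [CommRing C] [Algebra A C]

/-- PROOF. Check the coefficient of each `γ^(a)` (`Finsupp.ext`, `Cx.gam_D`, `Cx.gam_E`, `Cx.gam_q`). `DE`: `D (E v b_a) + E g (E v b_{a+1}) + E v (D b_a + E g b_{a+1})`; the two terms with `b_{a+1}`
cancel by `EE`. `D1`: `single 0 one` has coefficient `0` at `a + 1`. -/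
theorem ok_gam {K : Cx A C} {z : ℕ → C} {m : ℕ} (h : K.Ok z m) (g : ℕ → C) (s : ℤ) :
    (K.gam g s).Ok z m where
  D_smul c b := by
    refine Finsupp.ext fun a => ?_
    change K.D (c • b a) + K.E g (c • b (a + 1)) = c • (K.D (b a) + K.E g (b (a + 1)))
    rw [h.D_smul, h.E_smul, smul_add]
  E_smul v c b := by
    refine Finsupp.ext fun a => ?_
    change K.E v (c • b a) = c • K.E v (b a)
    rw [h.E_smul]
  q_smul c b := by
    change K.q (c • b 0) = c * K.q (b 0)
    rw [h.q_smul]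
  DE v b := by
    refine Finsupp.ext fun a => ?_
    change K.D (K.E v (b a)) + K.E g (K.E v (b (a + 1))) + K.E v (K.D (b a) + K.E g (b (a + 1))) =
      (∑ i ∈ Finset.range m, z i * v i) • b a
    have h1 := h.DE v (b a)
    have h2 := h.EE g v (b (a + 1))
    rw [LinearMap.map_add, ← h1, ← add_zero (K.D (K.E v (b a)) + K.E v (K.D (b a))), ← h2]
    abel
  EE v w b := by
    refine Finsupp.ext fun a => ?_
    exact h.EE v w (b a)
  E2 v b := by
    refine Finsupp.ext fun a => ?_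
    exact h.E2 v (b a)
  qE v b := h.qE v (b 0)
  qD b := by
    change K.q (K.D (b 0) + K.E g (b (0 + 1))) ∈ _
    rw [LinearMap.map_add, h.qE, add_zero]
    exact h.qD (b 0)
  D1 := by
    refine Finsupp.ext fun a => ?_
    change K.D ((Finsupp.single 0 K.one : ℕ →₀ K.X) a) +
      K.E g ((Finsupp.single 0 K.one : ℕ →₀ K.X) (a + 1)) = 0
    rw [Finsupp.single_eq_of_ne (Nat.succ_ne_zero a), LinearMap.map_zero, add_zero]
    cases a with
    | zero => rw [Finsupp.single_eq_same, h.D1]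
    | succ a => rw [Finsupp.single_eq_of_ne (Nat.succ_ne_zero a), LinearMap.map_zero]
  q1 := by
    change K.q ((Finsupp.single 0 K.one : ℕ →₀ K.X) 0) = 1
    rw [Finsupp.single_eq_same, h.q1]

/-- PROOF. The coefficient of `γ^(a)` of `D (D b)` is `D (D b_a + E g b_{a+1}) + E g (D b_{a+1} + E g b_{a+2}) = (∑ z_i g_i) b_{a+1} + E g (E g b_{a+2})`. -/
theorem d2_gam {K : Cx A C} {z : ℕ → C} {m : ℕ} (h : K.Ok z m) (h2 : ∀ x, K.D (K.D x) = 0)
    (g : ℕ → C) (hg : ∑ i ∈ Finset.range m, z i * g i = 0) (s : ℤ) :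
    ∀ x, (K.gam g s).D ((K.gam g s).D x) = 0 := by
  intro b
  refine Finsupp.ext fun a => ?_
  change K.D (K.D (b a) + K.E g (b (a + 1))) + K.E g (K.D (b (a + 1)) + K.E g (b (a + 1 + 1))) = 0
  have h1 := h.DE g (b (a + 1))
  rw [hg, zero_smul] at h1
  rw [LinearMap.map_add, LinearMap.map_add, h2, h.E2, zero_add, add_zero, h1]

theorem ok_Tx {K : Cx A C} {z : ℕ → C} {m : ℕ} (h : K.Ok z m) (h2 : ∀ x, K.D (K.D x) = 0)
    (g : ℕ → ℕ → C) (s : ℕ → ℤ) (j : ℕ) (hg : ∀ l < j, ∑ i ∈ Finset.range m, z i * g l i = 0) :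
    (Tx K g s j).Ok z m ∧ ∀ x, (Tx K g s j).D ((Tx K g s j).D x) = 0 := by
  induction j with
  | zero => exact ⟨h, h2⟩
  | succ j ih =>
    have ih' := ih fun l hl => hg l (by omega)
    exact ⟨ok_gam ih'.1 (g j) (s j), d2_gam ih'.1 ih'.2 (g j) (hg j (by omega)) (s j)⟩

end MP8a
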