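import Pool.Agent.Lib_MP_8a48ad_ci.Cx

/-! # Piece OKK: the identities, Koszul step -/

set_option autoImplicit false

namespace MP8a

universe u

variable {A C : Type u} [CommRing A] [CommRing C] [Algebra A C]

/-- All fields are immediate (`E v = 0`, `D = 0`, the sum is empty). -/
theorem ok_base (c : ℤ → C →+ C) (z : ℕ → C) : (Cx.base A C c).Ok z 0 where
  D_smul c x := (smul_zero c).symm
  E_smul v c x := (smul_zero c).symm
  q_smul c x := rfl
  DE v x := by
    rw [Finset.range_zero, Finset.sum_empty, zero_smul]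
    exact add_zero (0 : C)
  EE v w x := add_zero (0 : C)
  E2 v x := rfl
  qE v x := rfl
  qD x := Ideal.zero_mem _
  D1 := rfl
  q1 := rfl

/-- PROOF. Use `Cx.kos_D`, `Cx.kos_E`, `Cx.kos_q` and `Prod.ext`. E.g. `DE`: first component
`D (E v x) + z (v_m x - E v y) + E v (D x + z y) = (∑_{i<m} z_i v_i) x + z v_m x` (`E_smul`); second component
`- D (v_m x - E v y) + v_m (D x + z y) - E v (- D y) = D (E v y) + E v (D y) + v_m z y` (`D_smul`). `qD`: `q (D x + z y) = q (D x) + z q y`;
`span (z '' {i | i < m}) ≤ span (z '' {i | i < m + 1})`. -/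
theorem ok_kos {K : Cx A C} {z : ℕ → C} {m : ℕ} (h : K.Ok z m) (e : ℤ) :
    (K.kos m (z m) e).Ok z (m + 1) where
  D_smul c x := by
    have h1 : (c • x : K.X × K.X) = (c • x.1, c • x.2) := rfl
    refine (Cx.kos_D K m (z m) e (c • x)).trans ?_
    refine Prod.ext ?_ ?_
    · change K.D (c • x.1) + z m • (c • x.2) = c • (K.D x.1 + z m • x.2)
      rw [h.D_smul, smul_add, smul_comm]
    · change -(K.D (c • x.2)) = c • (-(K.D x.2))
      rw [h.D_smul, smul_neg]
  E_smul v c x := by
    refine Prod.ext ?_ ?_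
    · change K.E v (c • x.1) = c • K.E v x.1
      rw [h.E_smul]
    · change v m • (c • x.1) - K.E v (c • x.2) = c • (v m • x.1 - K.E v x.2)
      rw [h.E_smul, smul_sub, smul_comm]
  q_smul c x := by
    change K.q (c • x.1) = c * K.q x.1
    exact h.q_smul c x.1
  DE v x := by
    rw [Finset.sum_range_succ]
    refine Prod.ext ?_ ?_
    · change (K.D (K.E v x.1) + z m • (v m • x.1 - K.E v x.2)) + K.E v (K.D x.1 + z m • x.2) =
        (∑ i ∈ Finset.range m, z i * v i + z m * v m) • x.1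
      rw [map_add, h.E_smul, smul_sub, add_smul, ← h.DE v x.1, mul_smul]
      abel
    · change -(K.D (v m • x.1 - K.E v x.2)) + (v m • (K.D x.1 + z m • x.2) - K.E v (-(K.D x.2))) =
        (∑ i ∈ Finset.range m, z i * v i + z m * v m) • x.2
      rw [map_sub, h.D_smul, map_neg, add_smul, ← h.DE v x.2, smul_add, mul_comm (z m), mul_smul]
      abel
  EE v w x := by
    refine Prod.ext ?_ ?_
    · change K.E v (K.E w x.1) + K.E w (K.E v x.1) = 0
      exact h.EE v w x.1
    · change (v m • K.E w x.1 - K.E v (w m • x.1 - K.E w x.2)) +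
        (w m • K.E v x.1 - K.E w (v m • x.1 - K.E v x.2)) = 0
      rw [map_sub, map_sub, h.E_smul, h.E_smul]
      have h1 := h.EE v w x.2
      have h2 : (v m • K.E w x.1 - (w m • K.E v x.1 - K.E v (K.E w x.2))) +
        (w m • K.E v x.1 - (v m • K.E w x.1 - K.E w (K.E v x.2))) =
        K.E v (K.E w x.2) + K.E w (K.E v x.2) := by abel
      rw [h2, h1]
  E2 v x := by
    refine Prod.ext ?_ ?_
    · change K.E v (K.E v x.1) = 0
      exact h.E2 v x.1
    · change v m • K.E v x.1 - K.E v (v m • x.1 - K.E v x.2) = 0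
      rw [map_sub, h.E_smul, h.E2]
      abel
  qE v x := by
    change K.q (K.E v x.1) = 0
    exact h.qE v x.1
  qD x := by
    change K.q (K.D x.1 + z m • x.2) ∈ _
    rw [map_add, h.q_smul]
    refine Ideal.add_mem _ ?_ ?_
    · refine Ideal.span_mono ?_ (h.qD x.1)
      apply Set.image_mono
      intro i hi
      exact Nat.lt_succ_of_lt hi
    · refine Ideal.mul_mem_right _ _ (Ideal.subset_span ⟨m, Nat.lt_succ_self m, rfl⟩)
  D1 := by
    refine Prod.ext ?_ ?_
    · change K.D K.one + z m • (0 : K.X) = 0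
      rw [h.D1, smul_zero, add_zero]
    · change -(K.D (0 : K.X)) = 0
      rw [map_zero, neg_zero]
  q1 := h.q1

theorem d2_kos {K : Cx A C} {z : ℕ → C} {m : ℕ} (h : K.Ok z m) (h2 : ∀ x, K.D (K.D x) = 0) (e : ℤ) :
    ∀ x, (K.kos m (z m) e).D ((K.kos m (z m) e).D x) = 0 := by
  intro x
  refine Prod.ext ?_ ?_
  · change K.D (K.D x.1 + z m • x.2) + z m • (-(K.D x.2)) = 0
    rw [map_add, h2, h.D_smul, smul_neg]
    abel
  · change -(K.D (-(K.D x.2))) = 0
    rw [map_neg, h2]
    simp

/-- the Koszul complex -/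
theorem ok_Kx (c : ℤ → C →+ C) (z : ℕ → C) (e : ℕ → ℤ) (m : ℕ) :
    (Kx A c z e m).Ok z m ∧ ∀ x, (Kx A c z e m).D ((Kx A c z e m).D x) = 0 := by
  induction m with
  | zero => exact ⟨ok_base c z, fun x => rfl⟩
  | succ m ih => exact ⟨ok_kos ih.1 (e m), d2_kos ih.1 ih.2 (e m)⟩

end MP8a
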