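import Pool.Agent.Lib_MP_8a48ad_ci.Defs

/-! # Direct sums of shifted copies of a DG module -/

set_option autoImplicit false

namespace MP8a

universe u

variable {A : Type u} [CommRing A] {G : Gr A}

/-- the grading of the direct sum of the shifts -/
noncomputable def sumPr {X : Type u} [AddCommGroup X] (pr : ℤ → X →+ X) {I : Type u} (w : I → ℤ)
    (j : ℤ) : (I →₀ X) →+ (I →₀ X) where
  toFun b := Finsupp.onFinset b.support (fun a => pr (j - w a) (b a)) (fun a h => by
    rw [Finsupp.mem_support_iff]
    rintro h1
    rw [h1, map_zero] at h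
    exact h rfl)
  map_zero' := by
    ext a
    simp
  map_add' := fun b b' => by
    ext a
    simp

theorem sumPr_apply {X : Type u} [AddCommGroup X] (pr : ℤ → X →+ X) {I : Type u} (w : I → ℤ)
    (j : ℤ) (b : I →₀ X) (a : I) : sumPr pr w j b a = pr (j - w a) (b a) := rfl

theorem sumPr_single {X : Type u} [AddCommGroup X] (pr : ℤ → X →+ X) {I : Type u} (w : I → ℤ)
    (j : ℤ) (a : I) (x : X) :
    sumPr pr w j (Finsupp.single a x) = Finsupp.single a (pr (j - w a) x) := by
  classical
  ext b
  rw [sumPr_apply, Finsupp.single_apply, Finsupp.single_apply]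
  by_cases h : a = b
  · subst h
    rw [if_pos rfl, if_pos rfl]
  · rw [if_neg h, if_neg h, map_zero]

theorem sumD_fin (K : DGM G) {I : Type u} (w : I → ℤ) (b : I →₀ K.X) :
    ∃ t : Finset ℤ, ∑ i ∈ t, sumPr K.pr w i b = b := by
  classical
  choose S hS0 hS using fun a : I => K.exists_support (b a)
  refine ⟨b.support.biUnion fun a => (S a).map (addRightEmbedding (w a)), ?_⟩
  ext a
  rw [Finsupp.finsetSum_apply]
  simp only [sumPr_apply]
  by_cases ha : b a = 0
  · rw [ha]
    simp
  · have h1 := hS a ((b.support.biUnion fun a => (S a).map (addRightEmbedding (w a))).map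
      (addRightEmbedding (-(w a)))) (by
        intro i hi
        rw [Finset.mem_map]
        refine ⟨i + w a, Finset.mem_biUnion.2 ⟨a, Finsupp.mem_support_iff.2 ha,
          Finset.mem_map.2 ⟨i, hi, rfl⟩⟩, ?_⟩
        simp)
    rw [Finset.sum_map] at h1
    exact h1

/-- the direct sum of copies of `B` indexed by `I`, with the grading shifted: `single a x` has degree `i + w a` for `x` of
degree `i` -/
@[reducible] noncomputable def sumD (B : DGM G) {I : Type u} (w : I → ℤ) : DGM G where
  X := I →₀ B.X
  pr := sumPr B.pr w
  pr_pr i j b := by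
    ext a
    rw [sumPr_apply, sumPr_apply, B.pr_pr]
    by_cases hij : i = j
    · rw [if_pos (by rw [hij]), if_pos hij, sumPr_apply]
    · rw [if_neg (fun h' => hij (sub_left_injective h')), if_neg hij]
      rfl
  fin := sumD_fin B w
  smul := by
    intro i j a b ha hb
    ext l
    rw [sumPr_apply, Finsupp.smul_apply]
    have h1 : B.pr (j - w l) (b l) = b l := by rw [← sumPr_apply, hb]
    have h2 := B.smul ha h1
    have h3 : i + (j - w l) = i + j - w l := by ring
    rw [h3] at h2
    exact h2
  d := Finsupp.mapRange.linearMap B.d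
  d_hom := by
    intro i b hb
    ext a
    have h1 : B.pr (i - w a) (b a) = b a := by rw [← sumPr_apply, hb]
    rw [sumPr_apply]
    change B.pr (i + 1 - w a) (B.d (b a)) = B.d (b a)
    have h2 := B.d_hom h1
    have h3 : i - w a + 1 = i + 1 - w a := by ring
    rw [h3] at h2
    exact h2
  d_d b := by
    ext a
    exact B.d_d (b a)

theorem sumD_d_apply (B : DGM G) {I : Type u} (w : I → ℤ) (b : I →₀ B.X) (a : I) :
    ((sumD B w).d b : I →₀ B.X) a = B.d (b a) := rfl

theorem sumD_d_single (B : DGM G) {I : Type u} (w : I → ℤ) (a : I) (x : B.X) :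
    (sumD B w).d (Finsupp.single a x) = Finsupp.single a (B.d x) :=
  Finsupp.mapRange_single (hf := map_zero B.d)

/-- morphisms out of a direct sum -/
theorem isMor_sum (B M : DGM G) {I : Type u} (w : I → ℤ) (e : ℤ) (f : I → (B.X →ₗ[A] M.X))
    (h : ∀ a, IsMor B M (e + w a) (f a)) : IsMor (sumD B w) M e (Finsupp.lsum A f) := by
  constructor
  · intro i b
    induction b using Finsupp.induction_linear with
    | zero => rw [map_zero, map_zero, map_zero, map_zero]
    | add b b' hb hb' => rw [map_add, map_add, map_add, map_add, hb, hb']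
    | single a x =>
      rw [sumPr_single, Finsupp.lsum_single, Finsupp.lsum_single, ← (h a).pr]
      congr 2
      ring
  · intro b
    induction b using Finsupp.induction_linear with
    | zero => rw [map_zero, map_zero, map_zero, map_zero]
    | add b b' hb hb' => rw [map_add, map_add, map_add, map_add, hb, hb']
    | single a x =>
      rw [sumD_d_single, Finsupp.lsum_single, Finsupp.lsum_single, (h a).d]

end MP8a
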