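import Pool.Agent.Lib_MP_8a48ad_ci.HB
import Pool.Agent.Lib_MP_8a48ad_ci.SumD
import Pool.Agent.Lib_MP_8a48ad_gt.Coind

/-! # Piece QI: a resolution of `S ⊗_k N` -/

set_option autoImplicit false

namespace MP8a

open TensorProduct

universe u

variable {k : Type u} [Field k] {n : ℕ} {R : Type u} [CommRing R] [Algebra k R]
  [Algebra R (Sn k n)] {GR : Gr R}

attribute [local instance] kMod kTower

/-! ### coordinates in `S ⊗_k V` -/

section coord

variable (V : Type u) [AddCommGroup V] [Module k V]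

private noncomputable def qiE : (Sn k n ⊗[k] V) ≃ₗ[k] ((Fin n →₀ ℕ) →₀ V) :=
  (TensorProduct.congr (MvPolynomial.basisMonomials (Fin n) k).repr (LinearEquiv.refl k V)).trans
    (TensorProduct.finsuppScalarLeft k V (Fin n →₀ ℕ))

private theorem qiE_tmul (s : Sn k n) (v : V) (μ : Fin n →₀ ℕ) :
    qiE V (s ⊗ₜ v) μ = MvPolynomial.coeff μ s • v := by
  unfold qiE
  rw [LinearEquiv.trans_apply, TensorProduct.congr_tmul,
    TensorProduct.finsuppScalarLeft_apply_tmul_apply]
  rfl

private theorem qi_sum (t : Sn k n ⊗[k] V) :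
    t = ∑ μ ∈ (qiE V t).support, (MvPolynomial.monomial μ (1 : k) : Sn k n) ⊗ₜ[k] (qiE V t μ) := by
  classical
  apply (qiE (k := k) (n := n) V).injective
  ext ν
  rw [map_sum, Finsupp.finsetSum_apply]
  simp only [qiE_tmul, MvPolynomial.coeff_monomial]
  by_cases h : ν ∈ (qiE V t).support
  · rw [Finset.sum_eq_single ν]
    · rw [if_pos rfl, one_smul]
    · intro μ _ hμ
      rw [if_neg hμ, zero_smul]
    · intro h'
      exact absurd h h'
  · rw [Finsupp.notMem_support_iff.1 h]
    symm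
    refine Finset.sum_eq_zero fun μ hμ => ?_
    rw [if_neg, zero_smul]
    rintro rfl
    exact h hμ

end coord

private theorem qi_d (N : DGM (grS k n)) (t : Sn k n ⊗[k] N.X) (μ : Fin n →₀ ℕ) :
    qiE N.X ((FT N).d t) μ = N.d (qiE N.X t μ) := by
  induction t using TensorProduct.induction_on with
  | zero => simp
  | tmul s v =>
    rw [FT_d_tmul, qiE_tmul, qiE_tmul]
    exact ((dK N).map_smul _ v).symm
  | add x y hx hy =>
    rw [map_add, map_add, map_add, Finsupp.add_apply, Finsupp.add_apply, hx, hy, map_add]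

/-- the coordinate `s ⊗ x ↦ ℓ(x) s` -/
private noncomputable def qiL (N : DGM (grS k n)) (l : N.X →ₗ[k] k) :
    (Sn k n ⊗[k] N.X) →ₗ[k] Sn k n :=
  TensorProduct.lift (LinearMap.mk₂ k (fun s x => l x • s) (fun s s' x => smul_add _ _ _)
    (fun c s x => smul_comm _ _ _) (fun s x x' => by rw [map_add, add_smul])
    (fun c s x => by rw [map_smul, smul_assoc]))

private theorem qiL_tmul (N : DGM (grS k n)) (l : N.X →ₗ[k] k) (s : Sn k n) (x : N.X) :
    qiL N l (s ⊗ₜ x) = l x • s := rfl

private theorem qiL_d (N : DGM (grS k n)) (l : N.X →ₗ[k] k) (hl : ∀ x, l (N.d x) = 0)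
    (t : Sn k n ⊗[k] N.X) : qiL N l ((FT N).d t) = 0 := by
  induction t using TensorProduct.induction_on with
  | zero => simp
  | tmul s v => rw [FT_d_tmul, qiL_tmul, hl, zero_smul]
  | add x y hx hy => rw [map_add, map_add, hx, hy, add_zero]

/-- Let `v` be a basis of the cohomology of `N` over `k` and `π : B → S` surjective with acyclic kernel. Then
`⨁ B → S ⊗_k N`, `single i x ↦ π x ⊗ v i`, is bijective in cohomology (the grading `w'` plays no role).

PROOF. Two facts about `F = S ⊗_k N` (with `d = id ⊗ d`): (1) if `t ∈ F`, `d t = 0`, then `t = ∑ s_i ⊗ v_i + d u` (finite sum, `s_i ∈ S`). Indeed `F` is the direct sum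
over the monomials of copies of `N`: every `t` is uniquely `∑ x^μ ⊗ n_μ` (`TensorProduct.equivFinsuppOfBasisLeft (MvPolynomial.basisMonomials _ _)`, see `kosE` in
`Lib_MP_8a48ad_gt/KosAlg.lean`; it is private there, copy it) and `d t = ∑ x^μ ⊗ d n_μ`, so all `n_μ` are cycles, `n_μ = ∑ c_μi v_i + d y_μ` (`HBasis.span`). (2) for each `i` the
`k`-linear map `L_i : F → S`, `s ⊗ x ↦ ℓ_i(x) • s` satisfies `L_i (d u) = 0` (`HBasis.bd`), and `L_i (P b) = π (b i)` (`HBasis.one`, `HBasis.ne`; induction on `b`).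
A further fact (3): every `s ∈ S` is `π z` with `d z = 0` (choose `x` with `π x = s`; `d x` is a cycle in `ker π` because `d = 0` on `SR`; so `d x = d y`, `π y = 0`; `z = x - y`).
Injectivity: `d b = 0`, `d t = P b`: then `π (b i) = L_i (P b) = L_i (d t) = 0` and `d (b i) = 0` so `b i = d (y_i)` by `hq.2`; choose `y_i = 0` for `i ∉ supp b`
(`Finsupp.onFinset`). Surjectivity: (1) and (3): `t = ∑ s_i ⊗ v_i + d u`, `b i = z_i`, `π z_i = s_i`, `d z_i = 0`; so `t = P b + d u`. -/
theorem isQis_sum (hS : Setup k n GR) (N : DGM (grS k n)) {I : Type u} {w : I → ℤ} {v : I → N.X}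
    {ℓ : I → (N.X →ₗ[k] k)} (hv : HBasis N w v ℓ) (w' : I → ℤ) {B : DGM GR}
    {π : B.X →ₗ[R] (SR hS.compat).X} (hπ : IsMor B (SR hS.compat) 0 π)
    (hq : SQ B (SR hS.compat) π) (P : (sumD B w').X →ₗ[R] (restr hS.compat (FT N)).X)
    (hP : ∀ (i : I) (x : B.X), P (Finsupp.single i x) = ((π x : Sn k n) ⊗ₜ v i : Sn k n ⊗[k] N.X)) :
    IsQis (sumD B w') (restr hS.compat (FT N)) P := by
  classical
  obtain ⟨P', hP'⟩ : ∃ P' : (I →₀ B.X) →+ (Sn k n ⊗[k] N.X), ∀ b, P' b = P b :=
    ⟨{ toFun := fun b => P b, map_zero' := map_zero P, map_add' := map_add P }, fun _ => rfl⟩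
  have hPs : ∀ (i : I) (x : B.X), P' (Finsupp.single i x) = (π x : Sn k n) ⊗ₜ v i := by
    intro i x
    exact (hP' _).trans (hP i x)
  constructor
  · -- injectivity
    intro b hb t ht
    have hL : ∀ (i : I) (c : I →₀ B.X), qiL N (ℓ i) (P' c) = π (c i) := by
      intro i c
      induction c using Finsupp.induction_linear with
      | zero => rw [Finsupp.zero_apply, map_zero, map_zero, map_zero]
      | add c c' hc hc' => rw [Finsupp.add_apply, map_add, map_add, map_add, hc, hc']
      | single j x =>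
        rw [hPs, qiL_tmul]
        by_cases h : i = j
        · subst h
          rw [hv.one, one_smul, Finsupp.single_eq_same]
        · rw [hv.ne i j h, zero_smul, Finsupp.single_eq_of_ne h, map_zero]
    have h1 : ∀ i, ∃ y, (b i = 0 → y = 0) ∧ B.d y = b i := by
      intro i
      by_cases h0 : b i = 0
      · exact ⟨0, fun _ => rfl, by rw [map_zero, h0]⟩
      · have h2 : π (b i) = 0 := by
          have h5 : (FT N).d t = P' b := ht.trans (hP' b).symm
          rw [← hL i b, ← h5]
          exact qiL_d N (ℓ i) (hv.bd i) t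
        have h3 : B.d (b i) = 0 := by
          have h4 := DFunLike.congr_fun hb i
          exact h4
        obtain ⟨y, _, hy⟩ := hq.2 (b i) h2 h3
        exact ⟨y, fun h => absurd h h0, hy⟩
    choose y hy0 hy using h1
    refine ⟨Finsupp.onFinset b.support y fun i hi => ?_, ?_⟩
    · rw [Finsupp.mem_support_iff]
      exact fun h => hi (hy0 i h)
    · ext i
      exact hy i
  · -- surjectivity
    have h3 : ∀ s : Sn k n, ∃ z, π z = s ∧ B.d z = 0 := by
      intro s
      obtain ⟨x, hx⟩ := hq.1 s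
      obtain ⟨y, hy1, hy2⟩ := hq.2 (B.d x) (by rw [← hπ.d]; rfl) (B.d_d x)
      exact ⟨x - y, by rw [map_sub, hy1, sub_zero, hx], by rw [map_sub, hy2, sub_self]⟩
    -- the predicate
    let Q : (Sn k n ⊗[k] N.X) → Prop := fun t =>
      ∃ (b : I →₀ B.X) (u : Sn k n ⊗[k] N.X), (sumD B w').d b = 0 ∧ t = P' b + (FT N).d u
    have hQ0 : Q 0 := ⟨0, 0, map_zero _, by rw [map_zero, map_zero, add_zero]⟩
    have hQadd : ∀ t t', Q t → Q t' → Q (t + t') := by
      rintro t t' ⟨b, u, hb, rfl⟩ ⟨b', u', hb', rfl⟩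
      refine ⟨b + b', u + u', ?_, ?_⟩
      · rw [map_add, hb, hb', add_zero]
      · rw [map_add, map_add]
        abel
    have hQv : ∀ (s : Sn k n) (i : I), Q (s ⊗ₜ v i) := by
      intro s i
      obtain ⟨z, hz1, hz2⟩ := h3 s
      refine ⟨Finsupp.single i z, 0, ?_, ?_⟩
      · rw [sumD_d_single, hz2, Finsupp.single_zero]
      · rw [hPs, hz1, map_zero, add_zero]
    have hQd : ∀ u, Q ((FT N).d u) := fun u => ⟨0, u, map_zero _, by rw [map_zero, zero_add]⟩
    have hQc : ∀ (s : Sn k n) (x : N.X), N.d x = 0 → Q (s ⊗ₜ x) := by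
      intro s x hx
      obtain ⟨c, y, rfl⟩ := hv.span x hx
      rw [TensorProduct.tmul_add]
      refine hQadd _ _ ?_ (hQd (s ⊗ₜ y))
      rw [Finsupp.sum, TensorProduct.tmul_sum]
      refine Finset.sum_induction _ Q hQadd hQ0 fun i _ => ?_
      rw [← TensorProduct.smul_tmul]
      exact hQv _ i
    intro t ht
    have h4 : ∀ t : Sn k n ⊗[k] N.X, (FT N).d t = 0 → Q t := by
      intro t ht
      rw [qi_sum N.X t]
      refine Finset.sum_induction _ Q hQadd hQ0 fun μ _ => ?_
      refine hQc _ _ ?_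
      rw [← qi_d, ht, map_zero, Finsupp.zero_apply]
    obtain ⟨b, u, h5, h6⟩ := h4 t ht
    exact ⟨b, u, h5, h6.trans (congrArg (fun z => z + (FT N).d u) (hP' b))⟩

end MP8a
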